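import Pool.Agent.Helper47.RB.Eng
import Pool.Agent.Helper47.RK.Dig

/-!
# Project RB: monomials and numbers
-/

namespace Helper47.RB

open Finset MvPolynomial Helper49.RA Helper47.RK

universe u

/-- the variable of weight `Wt a - c` -/
def bw (c a : ℕ) : ℕ := bi (Nat.mod (Nat.sub (Nat.add (Wt a) 61) c) 61)

/-- one term -/
noncomputable def T4 (c sh a r1 r2 r3 : ℕ) : ℕ :=
  Bool.rec (Bool.rec 0 (Nat.pow 2 (Nat.add sh a)) (tau (bw c a) r1 r2 r3)) 0
    (Nat.ble 30 (bw c a))

/-- the row of a quartic monomial of weight `c` -/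
noncomputable def F4 (c sh l1 l2 l3 l4 : ℕ) : ℕ :=
  Nat.xor (Nat.xor (T4 c sh l1 l2 l3 l4) (T4 c sh l2 l1 l3 l4))
    (Nat.xor (T4 c sh l3 l1 l2 l4) (T4 c sh l4 l1 l2 l3))

variable {k : Type u} [Field k]

/-- the values of the quartic form -/
def tv (k : Type u) [Field k] (a b c d : Fin 30) : k :=
  if tau a.val b.val c.val d.val then 1 else 0

lemma phi_val {Φ : MvPolynomial (Fin 30) k →ₗ[k] k} (hΦ : IsPh k Φ) (a b c d : Fin 30) :
    Φ (X a * X b * X c * X d) = tv k a b c d := hΦ.val a b c d

lemma phi_pd {Φ : MvPolynomial (Fin 30) k →ₗ[k] k} (hΦ : IsPh k Φ) (a b i j l n : Fin 30) :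
    Φ (X b * pderiv a (X i * X j * X l * X n)) =
      (if i = a then tv k b j l n else 0) + (if j = a then tv k b i l n else 0) +
        ((if l = a then tv k b i j n else 0) + (if n = a then tv k b i j l else 0)) := by
  have h : (X b * pderiv a (X i * X j * X l * X n) : MvPolynomial (Fin 30) k) =
      (if i = a then X b * X j * X l * X n else 0) + (if j = a then X b * X i * X l * X n else 0) +
        ((if l = a then X b * X i * X j * X n else 0) +
          (if n = a then X b * X i * X j * X l else 0)) := by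
    simp only [Derivation.leibniz, pderiv_X, Pi.single_apply, smul_eq_mul]
    split_ifs <;> ring
  rw [h, map_add, map_add, map_add, ← phi_val hΦ b j l n, ← phi_val hΦ b i l n,
    ← phi_val hΦ b i j n, ← phi_val hΦ b i j l]
  split_ifs <;> simp

lemma T4_sound {c : ℕ} (hc : c < 61) {N sh : ℕ} {y : ℕ → k} {m : Fin 30 → Fin 30 → k}
    (hN : sh + 30 ≤ N)
    (hy : ∀ (a : Fin 30) (h : bw c a.val < 30), y (sh + a.val) = m a ⟨bw c a.val, h⟩)
    (a r1 r2 r3 : Fin 30)
    (hw : (Wt a.val + Wt r1.val + (Wt r2.val + Wt r3.val)) % 61 = c) :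
    ∑ b, m a b * tv k b r1 r2 r3 = LL N y (T4 c sh a.val r1.val r2.val r3.val) := by
  have ha := wt_lt a.val a.isLt
  have key : ∀ b : Fin 30, tau b.val r1.val r2.val r3.val = true → bw c a.val = b.val := by
    intro b hb
    have h1 := tau_wt hb
    have hb' := wt_lt b.val b.isLt
    have h2 : (Wt a.val + 61 - c) % 61 = Wt b.val := by omega
    have h3 : bw c a.val = bi ((Wt a.val + 61 - c) % 61) := rfl
    rw [h3, h2, bi_wt b.val b.isLt]
  unfold T4
  cases h4 : Nat.ble 30 (bw c a.val) with
  | true =>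
    have h5 : 30 ≤ bw c a.val := Nat.le_of_ble_eq_true h4
    rw [show (Bool.rec (Bool.rec 0 (Nat.pow 2 (Nat.add sh a.val))
      (tau (bw c a.val) r1.val r2.val r3.val)) 0 true : ℕ) = 0 from rfl, LL_zero]
    apply sum_eq_zero
    intro b _
    unfold tv
    rw [if_neg, mul_zero]
    intro h6
    have := key b h6
    have := b.isLt
    omega
  | false =>
    have h5 : bw c a.val < 30 := by
      by_contra h6
      have : Nat.ble 30 (bw c a.val) = true := Nat.ble_eq_true_of_le (by omega)
      rw [h4] at this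
      exact absurd this (by simp)
    rw [show (Bool.rec (Bool.rec 0 (Nat.pow 2 (Nat.add sh a.val))
      (tau (bw c a.val) r1.val r2.val r3.val)) 0 false : ℕ) =
        (Bool.rec 0 (Nat.pow 2 (Nat.add sh a.val))
      (tau (bw c a.val) r1.val r2.val r3.val)) from rfl]
    rw [sum_eq_single (⟨bw c a.val, h5⟩ : Fin 30)]
    · unfold tv
      cases h6 : tau (bw c a.val) r1.val r2.val r3.val with
      | true =>
        have h7 : LL N y (Nat.pow 2 (Nat.add sh a.val)) = y (sh + a.val) :=
          LL_pow y (by have := a.isLt; show sh + a.val < N; omega)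
        show m a ⟨bw c a.val, h5⟩ * (if true = true then 1 else 0)
          = LL N y (Nat.pow 2 (Nat.add sh a.val))
        rw [h7, if_pos rfl, mul_one, hy a h5]
      | false =>
        show m a ⟨bw c a.val, h5⟩ * (if false = true then 1 else 0) = LL N y 0
        rw [LL_zero, if_neg (by simp), mul_zero]
    · intro b _ hb
      unfold tv
      rw [if_neg, mul_zero]
      intro h6
      exact hb (Fin.ext (key b h6).symm)
    · intro h
      exact absurd (mem_univ _) h

/-- **The rows of quartic monomials.** -/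
lemma F4_sound (h2 : (2 : k) = 0) {Φ : MvPolynomial (Fin 30) k →ₗ[k] k} (hΦ : IsPh k Φ)
    {c : ℕ} (hc : c < 61) {N sh : ℕ} {y : ℕ → k} {m : Fin 30 → Fin 30 → k}
    (hN : sh + 30 ≤ N)
    (hy : ∀ (a : Fin 30) (h : bw c a.val < 30), y (sh + a.val) = m a ⟨bw c a.val, h⟩)
    (i j l n : Fin 30)
    (hw : (Wt i.val + Wt j.val + (Wt l.val + Wt n.val)) % 61 = c) :
    ∑ a, ∑ b, m a b * Φ (X b * pderiv a (X i * X j * X l * X n)) =
      LL N y (F4 c sh i.val j.val l.val n.val) := by
  have e : ∀ a : Fin 30, ∑ b, m a b * Φ (X b * pderiv a (X i * X j * X l * X n)) =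
      (if i = a then ∑ b, m a b * tv k b j l n else 0) +
      (if j = a then ∑ b, m a b * tv k b i l n else 0) +
      ((if l = a then ∑ b, m a b * tv k b i j n else 0) +
      (if n = a then ∑ b, m a b * tv k b i j l else 0)) := by
    intro a
    have h1 : ∀ b : Fin 30, m a b * Φ (X b * pderiv a (X i * X j * X l * X n)) =
        (if i = a then m a b * tv k b j l n else 0) + (if j = a then m a b * tv k b i l n else 0) +
        ((if l = a then m a b * tv k b i j n else 0) +
          (if n = a then m a b * tv k b i j l else 0)) := by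
      intro b
      rw [phi_pd hΦ]
      split_ifs <;> ring
    rw [sum_congr rfl fun b _ => h1 b, sum_add_distrib, sum_add_distrib, sum_add_distrib]
    have h3 : ∀ (p : Prop) [Decidable p] (g : Fin 30 → k),
        (∑ b, if p then g b else 0) = if p then ∑ b, g b else 0 := by
      intro p _ g
      split_ifs
      · rfl
      · exact sum_const_zero
    rw [h3, h3, h3, h3]
  rw [sum_congr rfl fun a _ => e a, sum_add_distrib, sum_add_distrib, sum_add_distrib]
  simp only [Finset.sum_ite_eq, mem_univ, if_true]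
  unfold F4
  rw [LL_xor h2, LL_xor h2, LL_xor h2]
  rw [T4_sound hc hN hy i j l n hw]
  rw [T4_sound hc hN hy j i l n (by rw [← hw]; congr 1; omega)]
  rw [T4_sound hc hN hy l i j n (by rw [← hw]; congr 1; omega)]
  rw [T4_sound hc hN hy n i j l (by rw [← hw]; congr 1; omega)]

/-! ### Codes of monomials -/

/-- the monomial of a code -/
noncomputable def mon (k : Type u) [Field k] (c : ℕ) : MvPolynomial (Fin 30) k :=
  ∏ x : Fin 30, X x ^ (c / 2 ^ (3 * x.val) % 2 ^ 3)

lemma pow8 (a : Fin 30) : Nat.pow 8 a.val = ds 3 30 (fun x => if x = a.val then 1 else 0) := by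
  rw [ds_indicator a.isLt, pow_mul]
  norm_num

lemma mon4 (a b c d : Fin 30) : mon k (Nat.add (Nat.add (Nat.pow 8 a.val) (Nat.pow 8 b.val))
    (Nat.add (Nat.pow 8 c.val) (Nat.pow 8 d.val))) = X a * X b * X c * X d := by
  have h1 : Nat.add (Nat.add (Nat.pow 8 a.val) (Nat.pow 8 b.val))
      (Nat.add (Nat.pow 8 c.val) (Nat.pow 8 d.val)) =
      ds 3 30 (fun x => ((if x = a.val then 1 else 0) + (if x = b.val then 1 else 0)) +
        ((if x = c.val then 1 else 0) + (if x = d.val then 1 else 0))) := by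
    rw [pow8, pow8, pow8, pow8]
    show (ds 3 30 _ + ds 3 30 _) + (ds 3 30 _ + ds 3 30 _) = _
    rw [ds_add, ds_add, ds_add]
  have h2 : ∀ x : Fin 30, (Nat.add (Nat.add (Nat.pow 8 a.val) (Nat.pow 8 b.val))
      (Nat.add (Nat.pow 8 c.val) (Nat.pow 8 d.val))) / 2 ^ (3 * x.val) % 2 ^ 3 =
      ((if x = a then 1 else 0) + (if x = b then 1 else 0)) +
        ((if x = c then 1 else 0) + (if x = d then 1 else 0)) := by
    intro x
    rw [h1, ds_digit _ x.isLt]
    · simp only [Fin.ext_iff]
    · intro x' _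
      split_ifs <;> norm_num
  unfold mon
  rw [prod_congr rfl fun x _ => by rw [h2 x]]
  simp only [pow_add, prod_mul_distrib]
  have h3 : ∀ a : Fin 30, ∏ x : Fin 30, (X x : MvPolynomial (Fin 30) k) ^ (if x = a then 1 else 0)
      = X a := by
    intro a
    rw [prod_eq_single a]
    · simp
    · intro b _ hb
      simp [hb]
    · intro h
      exact absurd (mem_univ _) h
  rw [h3, h3, h3, h3]
  ring

/-! ### The square of the ideal -/

lemma phi_ann {Φ : MvPolynomial (Fin 30) k →ₗ[k] k} {s : MvPolynomial (Fin 30) k}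
    (hs : s ∈ annI Φ) : Φ s = 0 := by
  have := hs 1
  rwa [mul_one] at this

lemma sq_le {Φ : MvPolynomial (Fin 30) k →ₗ[k] k} {s : MvPolynomial (Fin 30) k}
    (hs : s ∈ annI Φ ^ 2) : s ∈ annI Φ := Ideal.pow_le_self (by norm_num) hs

lemma pd_sq {Φ : MvPolynomial (Fin 30) k →ₗ[k] k} {s : MvPolynomial (Fin 30) k}
    (hs : s ∈ annI Φ ^ 2) (i : Fin 30) : pderiv i s ∈ annI Φ := by
  rw [pow_two] at hs
  refine Submodule.mul_induction_on hs ?_ ?_
  · intro p hp q hq
    rw [Derivation.leibniz, smul_eq_mul, smul_eq_mul]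
    exact Ideal.add_mem _ (Ideal.mul_mem_right _ _ hp) (Ideal.mul_mem_right _ _ hq)
  · intro p q hp hq
    rw [map_add]
    exact Ideal.add_mem _ hp hq

end Helper47.RB
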