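import Pool.Agent.Helper49.RA.Defs

/-!
# Project RB (MP_16b052_ag): the rigid local algebra in characteristic two

Thirty variables, indexed by the non-squares modulo `61`; the quartic form is invariant under the
group of order `15` which acts by `j ↦ j + 1` on the index `v = 15 ε + j`.
-/

namespace Helper47.RB

open MvPolynomial Helper49.RA

universe u

/-- the weights of the variables (six bits each) -/
def WB : ℕ := 0x28b19f72b766da3215465ef3cb77a14a05c76b5a2c602

/-- the weight of the variable `v` (a number modulo `61`) -/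
def Wt (v : ℕ) : ℕ := Nat.mod (Nat.shiftRight WB (Nat.mul 6 v)) 64

/-- the variables of given weights (five bits each, `31` for none) -/
def BB : ℕ := 0x1f7ffff6549f737fffffe2c7fe3fda1fa7d48d2ef9f97e13fe5ffa63ffffffe77f336ffff83ff

/-- the variable of weight `w`, or `31` -/
def bi (w : ℕ) : ℕ := Nat.mod (Nat.shiftRight BB (Nat.mul 5 w)) 32

/-- the table of the quartic form -/
def TB : ℕ := 0x8613440c436a0211a00c18580408392a0611061414a05a808442c12a0591414205950328821010c0e47400030b43680214309a207c8c460061001e096004a11e880c2091443819424040190435400e0ec00c301280604a20292370c02194448040912115044123282182148d07fffffff410b4682048aa0802426a08044c8400386510c028c6a42802040f620e1800d0203a0800833044221970406904c80128474200bc12fffffffe540c220410e1442a05900570060a40309a207646330020d2a010a582208062c802684c303a001ba90040ba00a410e94402a061104282940b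

/-- the variable `b` moved back by the index of `a` -/
def rv (b a : ℕ) : ℕ :=
  Nat.add (Nat.mul 15 (Nat.div b 15))
    (Nat.mod (Nat.sub (Nat.add (Nat.mod b 15) 15) (Nat.mod a 15)) 15)

/-- the entry of the table -/
def T3 (a b c : ℕ) : Bool :=
  Nat.beq (Nat.mod (Nat.shiftRight TB (Nat.add (Nat.mul 900 (Nat.div a 15))
    (Nat.add (Nat.mul 30 (rv b a)) (rv c a)))) 2) 1

/-- the coefficients of the quartic form -/
def tau (a b c d : ℕ) : Bool :=
  Bool.rec false (T3 a b c)
    (Nat.beq (Nat.mod (Nat.add (Nat.add (Wt a) (Wt b)) (Nat.add (Wt c) (Wt d))) 61) 0)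

/-- the weights as elements of `ℤ/61` -/
def w (i : Fin 30) : ZMod 61 := (Wt i.val : ZMod 61)

/-- the action of the generator of the group of order `15` on the variables -/
def pn (v : ℕ) : ℕ := Nat.add (Nat.mul 15 (Nat.div v 15)) (Nat.mod (Nat.add (Nat.mod v 15) 1) 15)

/-- the same on `Fin 30` -/
def p1 (i : Fin 30) : Fin 30 := ⟨pn i.val % 30, Nat.mod_lt _ (by norm_num)⟩

variable (k : Type u) [Field k]

/-- the variables, by numbers -/
noncomputable def xv (v : ℕ) : MvPolynomial (Fin 30) k :=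
  X (⟨v % 30, Nat.mod_lt _ (by norm_num)⟩ : Fin 30)

/-- `Φ` is the functional of the quartic form -/
structure IsPh (Φ : MvPolynomial (Fin 30) k →ₗ[k] k) : Prop where
  val : ∀ a b c d : Fin 30, Φ (X a * X b * X c * X d) =
    if tau a.val b.val c.val d.val then 1 else 0
  deg : ∀ (d : ℕ) (s : MvPolynomial (Fin 30) k), s.IsHomogeneous d → d ≠ 4 → Φ s = 0

/-- the action of the group on polynomials -/
noncomputable def sg : MvPolynomial (Fin 30) k →ₐ[k] MvPolynomial (Fin 30) k := rename p1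

variable {k}

/-- the functionals which vanish on the square of the ideal -/
def KF (Φ : MvPolynomial (Fin 30) k →ₗ[k] k) (G : MvPolynomial (Fin 30) k →ₗ[k] k) : Prop :=
  ∀ s ∈ annI Φ ^ 2, G s = 0

/-! ### The statements for one weight -/

/-- degree three, weight `u` -/
def B3 (Φ : MvPolynomial (Fin 30) k →ₗ[k] k) (u : ZMod 61) : Prop :=
  ∀ r : MvPolynomial (Fin 30) k, r.IsHomogeneous 3 → (∀ i, pderiv i r ∈ annI Φ) →
    ∀ i j l : Fin 30, w i + w j + w l = u →
      coeff (Finsupp.single i 1 + Finsupp.single j 1 + Finsupp.single l 1) r = 0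

/-- degree four, weight `u` -/
def B4 (Φ : MvPolynomial (Fin 30) k →ₗ[k] k) (u : ZMod 61) : Prop :=
  ∀ G : MvPolynomial (Fin 30) k →ₗ[k] k, KF Φ G →
    ∃ (β : k) (m : Fin 30 → Fin 30 → k), (u ≠ 0 → β = 0) ∧ (∀ a b, w a - w b ≠ u → m a b = 0) ∧
      ∀ i j l n : Fin 30, w i + w j + w l + w n = u →
        G (X i * X j * X l * X n) = β * Φ (X i * X j * X l * X n) +
          ∑ a, ∑ b, m a b * Φ (X b * pderiv a (X i * X j * X l * X n))

/-- degree five, weight `u` -/
def B5 (Φ : MvPolynomial (Fin 30) k →ₗ[k] k) (u : ZMod 61) : Prop :=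
  ∀ G : MvPolynomial (Fin 30) k →ₗ[k] k, KF Φ G →
    ∃ l : Fin 30 → k, ∀ i j p q r : Fin 30, w i + w j + w p + w q + w r = u →
      G (X i * (X j * X p * X q * X r)) =
        ∑ a, l a * Φ (pderiv a (X i * (X j * X p * X q * X r)))

/-! ### The statements in all weights -/

/-- degree one -/
def H1 (Φ : MvPolynomial (Fin 30) k →ₗ[k] k) : Prop :=
  ∀ r : MvPolynomial (Fin 30) k, r.IsHomogeneous 1 → r ∈ annI Φ → r = 0

/-- degree two -/
def H2 (Φ : MvPolynomial (Fin 30) k →ₗ[k] k) : Prop :=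
  ∀ r : MvPolynomial (Fin 30) k, r.IsHomogeneous 2 → r ∈ annI Φ → (∀ i, pderiv i r = 0) → r = 0

/-- degree three -/
def H3 (Φ : MvPolynomial (Fin 30) k →ₗ[k] k) : Prop :=
  ∀ r : MvPolynomial (Fin 30) k, r.IsHomogeneous 3 → r ∈ annI Φ →
    (∀ i, pderiv i r ∈ annI Φ) → r = 0

/-- degree four -/
def H4 (Φ : MvPolynomial (Fin 30) k →ₗ[k] k) : Prop :=
  ∀ G : MvPolynomial (Fin 30) k →ₗ[k] k, KF Φ G →
    ∃ (β : k) (m : Fin 30 → Fin 30 → k), ∀ s : MvPolynomial (Fin 30) k, s.IsHomogeneous 4 →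
      G s = β * Φ s + ∑ a, ∑ b, m a b * Φ (X b * pderiv a s)

/-- degree five -/
def H5 (Φ : MvPolynomial (Fin 30) k →ₗ[k] k) : Prop :=
  ∀ G : MvPolynomial (Fin 30) k →ₗ[k] k, KF Φ G →
    ∃ l : Fin 30 → k, ∀ s : MvPolynomial (Fin 30) k, s.IsHomogeneous 5 →
      G s = ∑ a, l a * Φ (pderiv a s)

/-- degree six -/
def H6 (Φ : MvPolynomial (Fin 30) k →ₗ[k] k) : Prop :=
  ∀ G : MvPolynomial (Fin 30) k →ₗ[k] k, KF Φ G →
    ∀ s : MvPolynomial (Fin 30) k, s.IsHomogeneous 6 → G s = 0

/-- the representatives of the weights -/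
def reps : List (ZMod 61) := [0, 1, 2, 4, 8]

end Helper47.RB
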