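import Pool.Agent.Helper47.RB.Facts

/-!
# Project RB: kernel engine over the field with two elements

A row is a number; its bits are the positions of the unknowns with coefficient one.
-/

namespace Helper47.RB

open Finset

universe u

/-- strict evaluation of a number -/
noncomputable def sf {α : Type} (n : ℕ) (K : ℕ → α) : α :=
  Nat.rec (K 0) (fun m _ => K (Nat.succ m)) n

lemma sf_eq {α : Type} (n : ℕ) (K : ℕ → α) : sf n K = K n := by
  cases n <;> rfl

/-- add the unique new bit of `v` to the mask, if there is exactly one -/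
noncomputable def absb (mask v : ℕ) (K : ℕ → Bool) : Bool :=
  sf (Nat.xor (Nat.lor v mask) mask) fun x =>
    Bool.rec (K mask) (sf (Nat.lor mask x) K) (Nat.beq (Nat.land x (Nat.sub x 1)) 0)

lemma pow_of_land : ∀ x : ℕ, x ≠ 0 → x &&& (x - 1) = 0 → ∃ e, x = 2 ^ e := by
  intro x
  induction x using Nat.strong_induction_on with
  | _ x ih =>
    intro h0 h
    rcases Nat.even_or_odd' x with ⟨y, hy | hy⟩
    · have hy0 : y ≠ 0 := by omega
      have h1 : y &&& (y - 1) = 0 := by
        apply Nat.eq_of_testBit_eq
        intro i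
        have h2 : (x &&& (x - 1)).testBit (i + 1) = (0 : ℕ).testBit (i + 1) := by rw [h]
        rw [Nat.testBit_and, Nat.testBit_succ, Nat.testBit_succ, Nat.zero_testBit, hy] at h2
        rw [Nat.testBit_and, Nat.zero_testBit]
        have h3 : 2 * y / 2 = y := by omega
        have h4 : (2 * y - 1) / 2 = y - 1 := by omega
        rw [h3, h4] at h2
        exact h2
      obtain ⟨e, he⟩ := ih y (by omega) hy0 h1
      exact ⟨e + 1, by rw [hy, he, pow_succ]; ring⟩
    · have h1 : y = 0 := by
        have h2 : y &&& y = 0 := by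
          apply Nat.eq_of_testBit_eq
          intro i
          have h2 : (x &&& (x - 1)).testBit (i + 1) = (0 : ℕ).testBit (i + 1) := by rw [h]
          rw [Nat.testBit_and, Nat.testBit_succ, Nat.testBit_succ, Nat.zero_testBit, hy] at h2
          rw [Nat.testBit_and, Nat.zero_testBit]
          have h3 : (2 * y + 1) / 2 = y := by omega
          have h4 : (2 * y + 1 - 1) / 2 = y := by omega
          rw [h3, h4] at h2
          exact h2
        rwa [Nat.and_self] at h2
      exact ⟨0, by rw [hy, h1]; rfl⟩

/-- the sum of the rows selected by the bits of `c` -/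
noncomputable def xsel (l : List ℕ) : ℕ → ℕ → (ℕ → Bool) → Bool :=
  List.rec (fun _ acc K => K acc)
    (fun r _ ih c acc K =>
      Bool.rec (sf (Nat.xor acc r) fun a => ih (Nat.shiftRight c 1) a K)
        (ih (Nat.shiftRight c 1) acc K) (Nat.beq (Nat.land c 1) 0)) l

/-- a digit -/
def dgt (t P i : ℕ) : ℕ := Nat.mod (Nat.shiftRight P (Nat.mul t i)) (Nat.pow 2 t)

/-- phase one: combinations of rows -/
noncomputable def ph1 (rows : List ℕ) (t P n : ℕ) : ℕ → (ℕ → Bool) → Bool :=
  Nat.rec (fun mask K => K mask)
    (fun j ih mask K => xsel rows (dgt t P j) 0 fun v => absb mask v fun m => ih m K) n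

/-- phase two: single rows -/
noncomputable def ph2 (rows : List ℕ) : ℕ → (ℕ → Bool) → Bool :=
  List.rec (fun mask K => K mask) (fun r _ ih mask K => absb mask r fun m => ih m K) rows

/-- the list of the values of `f` -/
noncomputable def mkR (f : ℕ → ℕ) (n : ℕ) : List ℕ → (List ℕ → Bool) → Bool :=
  Nat.rec (fun l K => K l) (fun i ih l K => sf (f i) fun r => ih (r :: l) K) n

/-- the complete check -/
noncomputable def chk (N : ℕ) (f : ℕ → ℕ) (nr t P nc mask : ℕ) : Bool :=
  mkR f nr [] fun rows => ph1 rows t P nc mask fun m => ph2 rows m fun m' =>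
    Nat.beq m' (Nat.sub (Nat.pow 2 N) 1)

section sound

variable {k : Type u} [Field k]

/-- the sum of the entries at the bits of `r` below `N` -/
def LL (N : ℕ) (y : ℕ → k) (r : ℕ) : k := ∑ i ∈ range N, if r.testBit i then y i else 0

lemma LL_zero (N : ℕ) (y : ℕ → k) : LL N y 0 = 0 := by
  unfold LL
  apply sum_eq_zero
  intro i _
  simp

lemma LL_xor (h2 : (2 : k) = 0) (N : ℕ) (y : ℕ → k) (a b : ℕ) :
    LL N y (Nat.xor a b) = LL N y a + LL N y b := by
  unfold LL
  rw [← sum_add_distrib]
  apply sum_congr rfl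
  intro i _
  have h3 : y i + y i = 0 := by
    have : y i + y i = 2 * y i := by ring
    rw [this, h2, zero_mul]
  have h4 : (Nat.xor a b).testBit i = (a.testBit i != b.testBit i) := by
    show (a ^^^ b).testBit i = _
    rw [Nat.testBit_xor]
  rw [h4]
  cases a.testBit i <;> cases b.testBit i <;> simp [h3]

lemma LL_pow {N : ℕ} (y : ℕ → k) {i : ℕ} (hi : i < N) : LL N y (Nat.pow 2 i) = y i := by
  unfold LL
  rw [sum_eq_single i]
  · have : (Nat.pow 2 i).testBit i = true := Nat.testBit_two_pow_self
    rw [this]
    rfl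
  · intro j _ hj
    have : (Nat.pow 2 i).testBit j = false := Nat.testBit_two_pow_of_ne (Ne.symm hj)
    rw [this]
    rfl
  · intro h
    exact absurd (mem_range.2 hi) h

/-- all unknowns in the mask vanish -/
def MZ (N : ℕ) (y : ℕ → k) (mask : ℕ) : Prop := ∀ i < N, mask.testBit i = true → y i = 0

lemma absb_sound {N : ℕ} {y : ℕ → k} {mask v : ℕ} {K : ℕ → Bool} (hm : MZ N y mask)
    (hv : LL N y v = 0) (h : absb mask v K = true) : ∃ m, MZ N y m ∧ K m = true := by
  unfold absb at h
  rw [sf_eq] at h
  cases h1 : Nat.beq (Nat.land (Nat.xor (Nat.lor v mask) mask)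
      (Nat.sub (Nat.xor (Nat.lor v mask) mask) 1)) 0 with
  | false =>
    rw [h1] at h
    exact ⟨mask, hm, h⟩
  | true =>
    rw [h1] at h
    have h' : sf (Nat.lor mask (Nat.xor (Nat.lor v mask) mask)) K = true := h
    rw [sf_eq] at h'
    refine ⟨_, ?_, h'⟩
    have hx0 := Nat.eq_of_beq_eq_true h1
    set x := Nat.xor (Nat.lor v mask) mask with hxdef
    by_cases hxz : x = 0
    · intro i hi hb
      have h4 : (Nat.lor mask x).testBit i = (mask.testBit i || x.testBit i) :=
        Nat.testBit_or _ _ _
      rw [h4, hxz, Nat.zero_testBit, Bool.or_false] at hb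
      exact hm i hi hb
    obtain ⟨e, hx⟩ := pow_of_land x hxz hx0
    have hbit : ∀ i, x.testBit i = (v.testBit i && !mask.testBit i) := by
      intro i
      have h3 : x.testBit i = ((v ||| mask) ^^^ mask).testBit i := rfl
      rw [h3, Nat.testBit_xor, Nat.testBit_or]
      cases v.testBit i <;> cases mask.testBit i <;> rfl
    have hbe : ∀ i, x.testBit i = decide (e = i) := by
      intro i
      rw [hx, Nat.testBit_two_pow]
    intro i hi hb
    have h4 : (Nat.lor mask x).testBit i = (mask.testBit i || x.testBit i) := Nat.testBit_or _ _ _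
    rw [h4] at hb
    cases hmi : mask.testBit i with
    | true => exact hm i hi hmi
    | false =>
      rw [hmi, Bool.false_or, hbe i] at hb
      have hei : e = i := of_decide_eq_true hb
      have h5 : LL N y v = y i := by
        unfold LL
        rw [sum_eq_single i]
        · have h6 := hbit i
          rw [hbe i, hmi] at h6
          have h7 : v.testBit i = true := by
            cases hvi : v.testBit i with
            | true => rfl
            | false =>
              rw [hvi] at h6
              simp [hei] at h6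
          rw [h7]
          rfl
        · intro j hj hji
          have h6 := hbit j
          rw [hbe j] at h6
          have h8 : decide (e = j) = false := decide_eq_false (by rw [hei]; exact Ne.symm hji)
          rw [h8] at h6
          cases hvj : v.testBit j with
          | false => rfl
          | true =>
            rw [hvj, Bool.true_and] at h6
            have h9 : mask.testBit j = true := by
              cases hmj : mask.testBit j with
              | true => rfl
              | false => rw [hmj] at h6; simp at h6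
            rw [hm j (mem_range.1 hj) h9]
            rfl
        · intro h6
          exact absurd (mem_range.2 hi) h6
      rw [← h5, hv]

lemma xsel_sound (h2 : (2 : k) = 0) {N : ℕ} {y : ℕ → k} (l : List ℕ) :
    ∀ (c acc : ℕ) (K : ℕ → Bool), (∀ r ∈ l, LL N y r = 0) → LL N y acc = 0 →
      xsel l c acc K = true → ∃ v, LL N y v = 0 ∧ K v = true := by
  induction l with
  | nil => intro c acc K _ hacc h; exact ⟨acc, hacc, h⟩
  | cons r l ih =>
    intro c acc K hl hacc h
    have h1 : xsel (r :: l) c acc K =
        Bool.rec (sf (Nat.xor acc r) fun a => xsel l (Nat.shiftRight c 1) a K)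
          (xsel l (Nat.shiftRight c 1) acc K) (Nat.beq (Nat.land c 1) 0) := rfl
    rw [h1] at h
    cases h3 : Nat.beq (Nat.land c 1) 0 with
    | false =>
      rw [h3] at h
      have h' : (sf (Nat.xor acc r) fun a => xsel l (Nat.shiftRight c 1) a K) = true := h
      rw [sf_eq] at h'
      refine ih _ _ _ (fun r hr => hl r (List.mem_cons_of_mem _ hr)) ?_ h'
      rw [LL_xor h2, hacc, hl r List.mem_cons_self, add_zero]
    | true =>
      rw [h3] at h
      exact ih _ _ _ (fun r hr => hl r (List.mem_cons_of_mem _ hr)) hacc h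

lemma ph1_sound (h2 : (2 : k) = 0) {N : ℕ} {y : ℕ → k} {rows : List ℕ}
    (hl : ∀ r ∈ rows, LL N y r = 0) (t P n : ℕ) :
    ∀ (mask : ℕ) (K : ℕ → Bool), MZ N y mask → ph1 rows t P n mask K = true →
      ∃ m, MZ N y m ∧ K m = true := by
  induction n with
  | zero => intro mask K hm h; exact ⟨mask, hm, h⟩
  | succ n ih =>
    intro mask K hm h
    have h1 : ph1 rows t P (n + 1) mask K =
        xsel rows (dgt t P n) 0 fun v => absb mask v fun m => ph1 rows t P n m K := rfl
    rw [h1] at h
    obtain ⟨v, hv, h3⟩ := xsel_sound h2 rows _ _ _ hl (LL_zero N y) h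
    obtain ⟨m, hm', h4⟩ := absb_sound hm hv h3
    exact ih m K hm' h4

lemma ph2_sound {N : ℕ} {y : ℕ → k} (rows : List ℕ) :
    ∀ (mask : ℕ) (K : ℕ → Bool), (∀ r ∈ rows, LL N y r = 0) → MZ N y mask →
      ph2 rows mask K = true → ∃ m, MZ N y m ∧ K m = true := by
  induction rows with
  | nil => intro mask K _ hm h; exact ⟨mask, hm, h⟩
  | cons r l ih =>
    intro mask K hl hm h
    have h1 : ph2 (r :: l) mask K = absb mask r fun m => ph2 l m K := rfl
    rw [h1] at h
    obtain ⟨m, hm', h4⟩ := absb_sound hm (hl r List.mem_cons_self) h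
    exact ih m K (fun r hr => hl r (List.mem_cons_of_mem _ hr)) hm' h4

lemma mkR_sound (f : ℕ → ℕ) (n : ℕ) :
    ∀ (l : List ℕ) (K : List ℕ → Bool), mkR f n l K = true →
      ∃ l' : List ℕ, K l' = true ∧ ∀ r ∈ l', r ∈ l ∨ ∃ i < n, r = f i := by
  induction n with
  | zero => intro l K h; exact ⟨l, h, fun r hr => Or.inl hr⟩
  | succ n ih =>
    intro l K h
    have h1 : mkR f (n + 1) l K = sf (f n) fun r => mkR f n (r :: l) K := rfl
    rw [h1, sf_eq] at h
    obtain ⟨l', h3, h4⟩ := ih _ _ h
    refine ⟨l', h3, fun r hr => ?_⟩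
    rcases h4 r hr with h5 | ⟨i, hi, h5⟩
    · rcases List.mem_cons.1 h5 with h6 | h6
      · exact Or.inr ⟨n, by omega, h6⟩
      · exact Or.inl h6
    · exact Or.inr ⟨i, by omega, h5⟩

/-- **Soundness of the check.** -/
theorem chk_sound (h2 : (2 : k) = 0) {N : ℕ} {y : ℕ → k} {f : ℕ → ℕ} {nr t P nc mask : ℕ}
    (hf : ∀ i < nr, LL N y (f i) = 0) (hm : MZ N y mask)
    (h : chk N f nr t P nc mask = true) : ∀ i < N, y i = 0 := by
  obtain ⟨rows, h1, h3⟩ := mkR_sound f nr [] _ h
  have hr : ∀ r ∈ rows, LL N y r = 0 := by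
    intro r hr
    rcases h3 r hr with h4 | ⟨i, hi, h4⟩
    · exact absurd h4 (by simp)
    · rw [h4]; exact hf i hi
  obtain ⟨m, hm1, h5⟩ := ph1_sound h2 hr t P nc mask _ hm h1
  obtain ⟨m', hm2, h6⟩ := ph2_sound rows m _ hr hm1 h5
  have h7 : m' = 2 ^ N - 1 := Nat.eq_of_beq_eq_true h6
  intro i hi
  apply hm2 i hi
  rw [h7, Nat.testBit_two_pow_sub_one]
  exact decide_eq_true hi

end sound

end Helper47.RB
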