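import Pool.Agent.Helper47.RB.Defs

/-!
# Project RB: the facts about the table
-/

namespace Helper47.RB

/-- `f i` for all `i < n` -/
noncomputable def allB (n : ℕ) (f : ℕ → Bool) : Bool :=
  Nat.rec true (fun i ih => Bool.rec false ih (f i)) n

lemma allB_spec {f : ℕ → Bool} : ∀ {n : ℕ}, allB n f = true → ∀ i < n, f i = true := by
  intro n
  induction n with
  | zero => intro _ i hi; omega
  | succ n ih =>
    intro h i hi
    have h1 : allB (n + 1) f = Bool.rec false (allB n f) (f n) := rfl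
    rw [h1] at h
    cases h2 : f n with
    | false => rw [h2] at h; exact absurd h (by simp)
    | true =>
      rw [h2] at h
      rcases Nat.lt_succ_iff_lt_or_eq.1 hi with h3 | h3
      · exact ih h i h3
      · rw [h3]; exact h2

/-- conjunction -/
noncomputable def an (x y : Bool) : Bool := Bool.rec false y x

lemma an_spec {x y : Bool} (h : an x y = true) : x = true ∧ y = true := by
  cases x
  · exact absurd h (by simp [an])
  · exact ⟨rfl, h⟩

/-- negation -/
noncomputable def ng (x : Bool) : Bool := Bool.rec true false x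

lemma ng_spec {x : Bool} (h : ng x = true) : x = false := by
  cases x
  · rfl
  · exact absurd h (by simp [ng])

/-- equality of truth values -/
noncomputable def eqB (x y : Bool) : Bool := Bool.rec (ng y) y x

lemma eqB_spec {x y : Bool} (h : eqB x y = true) : x = y := by
  cases x
  · exact (ng_spec h).symm
  · exact h.symm

/-! ### Weights -/

theorem wt_lt : ∀ v < 30, Wt v < 61 := by decide +kernel

theorem bi_wt : ∀ v < 30, bi (Wt v) = v := by decide +kernel

theorem wt_bi : ∀ u < 61, bi u < 30 → Wt (bi u) = u := by decide +kernel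

theorem wt_pn : ∀ v < 30, Wt (pn v) = (12 * Wt v) % 61 := by decide +kernel

theorem pn_lt : ∀ v < 30, pn v < 30 := by decide +kernel

theorem rv_pn : ∀ b < 30, ∀ a < 30, rv (pn b) (pn a) = rv b a := by decide +kernel

theorem p1_val (i : Fin 30) : (p1 i).val = pn i.val := Nat.mod_eq_of_lt (pn_lt _ i.isLt)

theorem w_inj : Function.Injective w := by
  intro i j h
  unfold w at h
  have h1 := (ZMod.natCast_eq_natCast_iff' _ _ 61).1 h
  rw [Nat.mod_eq_of_lt (wt_lt _ i.isLt), Nat.mod_eq_of_lt (wt_lt _ j.isLt)] at h1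
  have h2 := congrArg bi h1
  rw [bi_wt _ i.isLt, bi_wt _ j.isLt] at h2
  exact Fin.ext h2

theorem w_p1 (i : Fin 30) : w (p1 i) = 12 * w i := by
  unfold w
  rw [p1_val, wt_pn _ i.isLt, ZMod.natCast_mod, Nat.cast_mul]
  rfl

theorem p1_bij : Function.Bijective p1 := by decide +kernel

theorem p1_pow (i : Fin 30) : p1^[15] i = i := by
  revert i
  decide +kernel

/-- all weights come from the representatives -/
theorem reps_cyc : ∀ u : ZMod 61, ∃ u0 ∈ reps, ∃ h < 15, u = 12 ^ h * u0 := by
  decide +kernel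

/-! ### The quartic form -/

theorem tau_eq (a b c d : ℕ) (h : (Wt a + Wt b + (Wt c + Wt d)) % 61 = 0) :
    tau a b c d = T3 a b c := by
  have h1 : Nat.beq (Nat.mod (Nat.add (Nat.add (Wt a) (Wt b)) (Nat.add (Wt c) (Wt d))) 61) 0 =
      true := by rw [Nat.beq_eq]; exact h
  unfold tau
  rw [h1]

theorem tau_ne (a b c d : ℕ) (h : (Wt a + Wt b + (Wt c + Wt d)) % 61 ≠ 0) :
    tau a b c d = false := by
  have h1 : Nat.beq (Nat.mod (Nat.add (Nat.add (Wt a) (Wt b)) (Nat.add (Wt c) (Wt d))) 61) 0 =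
      false := by
    rw [← Bool.not_eq_true]
    intro h2
    exact h (Nat.eq_of_beq_eq_true h2)
  unfold tau
  rw [h1]

theorem tau_wt {a b c d : ℕ} (h : tau a b c d = true) :
    (Wt a + Wt b + (Wt c + Wt d)) % 61 = 0 := by
  by_contra h1
  rw [tau_ne _ _ _ _ h1] at h
  exact absurd h (by simp)

/-- the check of the symmetry -/
noncomputable def symB (a b c : ℕ) : Bool :=
  Bool.rec
    (an (eqB (T3 a b c) (T3 b a c)) (an (eqB (T3 a b c) (T3 a c b))
      (eqB (T3 a b c)
        (T3 a b (bi (Nat.mod (Nat.sub 183 (Nat.add (Nat.add (Wt a) (Wt b)) (Wt c))) 61))))))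
    true
    (Nat.ble 30 (bi (Nat.mod (Nat.sub 183 (Nat.add (Nat.add (Wt a) (Wt b)) (Wt c))) 61)))

set_option maxRecDepth 100000 in
theorem symB_all : allB 30 (fun a => allB 30 fun b => allB 30 fun c => symB a b c) = true := by
  decide +kernel

theorem sym_T3 {a b c d : ℕ} (ha : a < 30) (hb : b < 30) (hc : c < 30) (hd : d < 30)
    (h : (Wt a + Wt b + (Wt c + Wt d)) % 61 = 0) :
    T3 a b c = T3 b a c ∧ T3 a b c = T3 a c b ∧ T3 a b c = T3 a b d := by
  have h1 := allB_spec (allB_spec (allB_spec symB_all a ha) b hb) c hc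
  have ha' := wt_lt a ha
  have hb' := wt_lt b hb
  have hc' := wt_lt c hc
  have hd' := wt_lt d hd
  have h2 : Nat.mod (Nat.sub 183 (Nat.add (Nat.add (Wt a) (Wt b)) (Wt c))) 61 = Wt d := by
    show (183 - (Wt a + Wt b + Wt c)) % 61 = Wt d
    omega
  unfold symB at h1
  rw [h2, bi_wt d hd] at h1
  have h3 : Nat.ble 30 d = false := by
    rw [← Bool.not_eq_true]
    intro h4
    have := Nat.le_of_ble_eq_true h4
    omega
  rw [h3] at h1
  obtain ⟨h5, h6⟩ := an_spec h1
  obtain ⟨h7, h8⟩ := an_spec h6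
  exact ⟨eqB_spec h5, eqB_spec h7, eqB_spec h8⟩

theorem tau_s1 {a b c d : ℕ} (ha : a < 30) (hb : b < 30) (hc : c < 30) (hd : d < 30) :
    tau a b c d = tau b a c d := by
  by_cases h : (Wt a + Wt b + (Wt c + Wt d)) % 61 = 0
  · rw [tau_eq _ _ _ _ h, tau_eq _ _ _ _ (by rwa [Nat.add_comm (Wt b)])]
    exact (sym_T3 ha hb hc hd h).1
  · rw [tau_ne _ _ _ _ h, tau_ne _ _ _ _ (by rwa [Nat.add_comm (Wt b)])]

theorem tau_s2 {a b c d : ℕ} (ha : a < 30) (hb : b < 30) (hc : c < 30) (hd : d < 30) :
    tau a b c d = tau a c b d := by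
  have e : Wt a + Wt b + (Wt c + Wt d) = Wt a + Wt c + (Wt b + Wt d) := by omega
  by_cases h : (Wt a + Wt b + (Wt c + Wt d)) % 61 = 0
  · rw [tau_eq _ _ _ _ h, tau_eq _ _ _ _ (by rwa [← e])]
    exact (sym_T3 ha hb hc hd h).2.1
  · rw [tau_ne _ _ _ _ h, tau_ne _ _ _ _ (by rwa [← e])]

theorem tau_s3 {a b c d : ℕ} (ha : a < 30) (hb : b < 30) (hc : c < 30) (hd : d < 30) :
    tau a b c d = tau a b d c := by
  have e : Wt a + Wt b + (Wt c + Wt d) = Wt a + Wt b + (Wt d + Wt c) := by omega
  by_cases h : (Wt a + Wt b + (Wt c + Wt d)) % 61 = 0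
  · rw [tau_eq _ _ _ _ h, tau_eq _ _ _ _ (by rwa [← e])]
    exact (sym_T3 ha hb hc hd h).2.2
  · rw [tau_ne _ _ _ _ h, tau_ne _ _ _ _ (by rwa [← e])]

theorem pn_div : ∀ v < 30, pn v / 15 = v / 15 := by decide +kernel

theorem tau_pn {a b c d : ℕ} (ha : a < 30) (hb : b < 30) (hc : c < 30) (hd : d < 30) :
    tau (pn a) (pn b) (pn c) (pn d) = tau a b c d := by
  have e : (Wt (pn a) + Wt (pn b) + (Wt (pn c) + Wt (pn d))) % 61 =
      (12 * (Wt a + Wt b + (Wt c + Wt d))) % 61 := by
    rw [wt_pn a ha, wt_pn b hb, wt_pn c hc, wt_pn d hd]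
    omega
  have e2 : (Wt (pn a) + Wt (pn b) + (Wt (pn c) + Wt (pn d))) % 61 = 0 ↔
      (Wt a + Wt b + (Wt c + Wt d)) % 61 = 0 := by
    rw [e]
    omega
  by_cases h : (Wt a + Wt b + (Wt c + Wt d)) % 61 = 0
  · rw [tau_eq _ _ _ _ h, tau_eq _ _ _ _ (e2.2 h)]
    unfold T3
    rw [rv_pn b hb a ha, rv_pn c hc a ha]
    have h1 : Nat.div (pn a) 15 = Nat.div a 15 := pn_div a ha
    rw [h1]
  · rw [tau_ne _ _ _ _ h, tau_ne _ _ _ _ (fun h' => h (e2.1 h'))]

/-! ### Tables for the degrees one, two and six -/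

/-- table for degree six -/
def EB : ℕ := 0x281d8739cb739cb739cb739cb739cb739cb739cb739cb739cb739cb739cb739cb739cb739cb0000c739cb739cb039c9739cb739cb739cb739cb739cb739cb739cb739cb739cb739cb739cb6b5aa239b76b5aa6b5aa6b5aa6b5aa6b5aa6b5aa6b5aa6b5aa6b5aa6b5aa6b5aa6b5aa6b5aa6b5aa739cb6b5aa6b5aa735a86b5aa6b5aa6b5aa6b5aa6b5aa6b5aa6b5aa6b5aa6b5aa6b5aa63189631891b59663189631896318963189631896318963189631896318963189631896318963189631896b5aa63189631896b1876318963189631896318963189631896318963189631895ad685ad685ad68131755ad685ad685ad685ad685ad685ad685ad685ad685ad685ad685ad685ad685ad685ad68631895ad685ad6862d665ad685ad685ad685ad685ad685ad685ad685ad68529475294752947529470ad5452947529475294752947529475294752947529475294752947529475294752947529475ad6852947529475a945529475294752947529475294752947529474a5264a5264a5264a5264a526029334a5264a5264a5264a5264a5264a5264a5264a5264a5264a5264a5264a5264a5264a526529474a5264a526525244a5264a5264a5264a5264a5264a5264210542105421054210542105421057251242105421054210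542105421054210542105421054210542105421054210542105421054a52642105421054a103421054210542105421054210539ce439ce439ce439ce439ce439ce439ce46a0f139ce439ce439ce439ce439ce439ce439ce439ce439ce439ce439ce439ce439ce439ce44210539ce439ce441ce239ce439ce439ce439ce4318c3318c3318c3318c3318c3318c3318c3318c361cd0318c3318c3318c3318c3318c3318c3318c3318c3318c3318c3318c3318c3318c3318c339ce4318c3318c3398c1318c3318c3318c3294a2294a2294a2294a2294a2294a2294a2294a2294a2598af294a2294a2294a2294a2294a2294a2294a2294a2294a2294a2294a2294a2294a2294a2318c3294a2294a2314a0294a2294a2210812108121081210812108121081210812108121081210815149d2108121081210812108121081210812108121081210812108121081210812108121081294a221081210812908e2108118c6018c6018c6018c6018c6018c6018c6018c6018c6018c6018c604907c18c6018c6018c6018c6018c6018c6018c6018c6018c6018c6018c6018c6018c6018c602108118c6018c6020c6d1084e1084e1084e1084e1084e1084e1084e1084e1084e1084e1084e1084e40c5b1084e1084e1884c1084e1084e1084e1084e1084e1084e1084e1084e1084e1084e1084e18c601084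e1084e0842d0842d0842d0842d0842d0842d0842d0842d0842d0842d0842d0842d0842d3883a0842d0842d1042b0842d0842d0842d0842d0842d0842d0842d0842d0842d0842d0842d1084e0842d0000c0000c0000c0000c0000c0000c0000c0000c0000c0000c0000c0000c0000c0000c304190000c0000c0800a0000c0000c0000c0000c0000c0000c0000c0000c0000c0000c0000c0842d739cb739cb739cb739cb739cb739cb739cb739cb739cb739cb739cb739cb739cb739cb739cb0000c739cb739cb281d8739cb739cb739cb739cb739cb739cb739cb739cb739cb739cb739cb6b5aa6b5aa6b5aa6b5aa6b5aa6b5aa6b5aa6b5aa6b5aa6b5aa6b5aa6b5aa6b5aa6b5aa6b5aa6b5aa739cb6b5aa6b5aa239b76b5aa6b5aa6b5aa6b5aa6b5aa6b5aa6b5aa6b5aa6b5aa6b5aa63189631896318963189631896318963189631896318963189631896318963189631896318963189631896b5aa63189631891b5966318963189631896318963189631896318963189631895ad685ad685ad685ad685ad685ad685ad685ad685ad685ad685ad685ad685ad685ad685ad685ad685ad685ad68631895ad685ad68131755ad685ad685ad685ad685ad685ad685ad685ad6852947529475294752947529475294752947529475294752947529475294752947529475294752947529475294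7529475ad6852947529470ad54529475294752947529475294752947529474a5264a5264a5264a5264a5264a5264a5264a5264a5264a5264a5264a5264a5264a5264a5264a5264a5264a5264a5264a526529474a5264a526029334a5264a5264a5264a5264a5264a5264210542105421054210542105421054210542105421054210542105421054210542105421054210542105421054210542105421054a526421054210572512421054210542105421054210539ce439ce439ce439ce439ce439ce439ce439ce439ce439ce439ce439ce439ce439ce439ce439ce439ce439ce439ce439ce439ce439ce44210539ce439ce46a0f139ce439ce439ce439ce4318c3318c3318c3318c3318c3318c3318c3318c3318c3318c3318c3318c3318c3318c3318c3318c3318c3318c3318c3318c3318c3318c3318c339ce4318c3318c361cd0318c3318c3318c3294a2294a2294a2294a2294a2294a2294a2294a2294a2294a2294a2294a2294a2294a2294a2294a2294a2294a2294a2294a2294a2294a2294a2294a2318c3294a2294a2598af294a2294a221081210812108121081210812108121081210812108121081210812108121081210812108121081210812108121081210812108121081210812108121081294a221081210815149d2108118c6018c6018c6018c6018c6018c6018c6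018c6018c6018c6018c6018c6018c6018c6018c6018c6018c6018c6018c6018c6018c6018c6018c6018c6018c6018c602108118c6018c604907c1084e1084e1084e1084e1084e1084e1084e1084e1084e1084e1084e1084e1084e1084e1084e40c5b1084e1084e1084e1084e1084e1084e1084e1084e1084e1084e1084e18c601084e1084e0842d0842d0842d0842d0842d0842d0842d0842d0842d0842d0842d0842d0842d0842d0842d0842d3883a0842d0842d0842d0842d0842d0842d0842d0842d0842d0842d0842d1084e0842d0000c0000c0000c0000c0000c0000c0000c0000c0000c0000c0000c0000c0000c0000c0000c0000c0000c304190000c0000c0000c0000c0000c0000c0000c0000c0000c0000c0000c0842d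

/-- table for degree one -/
def T1B : ℕ := 0x3ae771addb19a5af2a56129ba11639ea6350a59909218e22140217800b7394d6a58c42d67528c94950821ce3318452848400c6e109a10b000

/-- table for degree two -/
def T2B : ℕ := 0x739ad6316b52929420e7318a521063108210016e5352c42cea324a821c661142400dc268580

/-- a five bit digit -/
def d5 (N s : ℕ) : ℕ := Nat.mod (Nat.shiftRight N s) 32

/-- the check for degree six -/
noncomputable def chkE (v a v' b c d : ℕ) : Bool :=
  an (an (an (ng (Nat.beq v' v)) (ng (Nat.beq v' a))) (an (Nat.ble (Nat.succ v') 30)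
    (an (Nat.ble (Nat.succ b) 30) (an (Nat.ble (Nat.succ c) 30) (Nat.ble (Nat.succ d) 30)))))
  (an (an (tau v' b c d) (ng (tau a b c d)))
    (an (an (ng (tau v' a c d)) (an (ng (tau v' a b d)) (ng (tau v' a b c))))
      (an (ng (tau v b c d)) (an (ng (tau v a c d)) (an (ng (tau v a b d)) (ng (tau v a b c)))))))

set_option maxRecDepth 100000 in
theorem chkE_all : allB 30 (fun v => allB 30 fun a =>
    chkE v a (d5 EB (20 * (30 * v + a))) (d5 EB (20 * (30 * v + a) + 5))
      (d5 EB (20 * (30 * v + a) + 10)) (d5 EB (20 * (30 * v + a) + 15))) = true := by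
  decide +kernel

/-- **Table for degree six.** -/
theorem tabE (v a : Fin 30) : ∃ v' b c d : Fin 30, v' ≠ v ∧ v' ≠ a ∧
    tau v'.val b.val c.val d.val = true ∧ tau a.val b.val c.val d.val = false ∧
    tau v'.val a.val c.val d.val = false ∧ tau v'.val a.val b.val d.val = false ∧
    tau v'.val a.val b.val c.val = false ∧
    tau v.val b.val c.val d.val = false ∧ tau v.val a.val c.val d.val = false ∧
    tau v.val a.val b.val d.val = false ∧ tau v.val a.val b.val c.val = false := by
  have h := allB_spec (allB_spec chkE_all v.val v.isLt) a.val a.isLt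
  unfold chkE at h
  obtain ⟨h1, h2⟩ := an_spec h
  obtain ⟨h3, h4⟩ := an_spec h1
  obtain ⟨h5, h6⟩ := an_spec h3
  obtain ⟨h7, h8⟩ := an_spec h4
  obtain ⟨h9, h10⟩ := an_spec h8
  obtain ⟨h11, h12⟩ := an_spec h10
  obtain ⟨g1, g2⟩ := an_spec h2
  obtain ⟨g3, g4⟩ := an_spec g1
  obtain ⟨g5, g6⟩ := an_spec g2
  obtain ⟨g7, g8⟩ := an_spec g5
  obtain ⟨g9, g10⟩ := an_spec g8
  obtain ⟨g11, g12⟩ := an_spec g6
  obtain ⟨g13, g14⟩ := an_spec g12
  obtain ⟨g15, g16⟩ := an_spec g14
  have k1 : d5 EB (20 * (30 * v.val + a.val)) < 30 := Nat.le_of_ble_eq_true h7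
  have k2 : d5 EB (20 * (30 * v.val + a.val) + 5) < 30 := Nat.le_of_ble_eq_true h9
  have k3 : d5 EB (20 * (30 * v.val + a.val) + 10) < 30 := Nat.le_of_ble_eq_true h11
  have k4 : d5 EB (20 * (30 * v.val + a.val) + 15) < 30 := Nat.le_of_ble_eq_true h12
  refine ⟨⟨_, k1⟩, ⟨_, k2⟩, ⟨_, k3⟩, ⟨_, k4⟩, ?_, ?_, g3, ng_spec g4, ng_spec g7, ng_spec g9,
    ng_spec g10, ng_spec g11, ng_spec g13, ng_spec g15, ng_spec g16⟩
  · intro e
    have e1 := congrArg Fin.val e
    have e2 : d5 EB (20 * (30 * v.val + a.val)) = v.val := e1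
    rw [e2] at h5
    have := ng_spec h5
    simp at this
  · intro e
    have e1 := congrArg Fin.val e
    have e2 : d5 EB (20 * (30 * v.val + a.val)) = a.val := e1
    rw [e2] at h6
    have := ng_spec h6
    simp at this

/-- the check for degree one -/
noncomputable def chk1 (a i j l : ℕ) : Bool :=
  an (an (Nat.ble (Nat.succ i) 30) (an (Nat.ble (Nat.succ j) 30) (Nat.ble (Nat.succ l) 30)))
    (tau a i j l)

theorem chk1_all : allB 30 (fun a => chk1 a (d5 T1B (15 * a)) (d5 T1B (15 * a + 5))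
    (d5 T1B (15 * a + 10))) = true := by
  decide +kernel

/-- **Table for degree one.** -/
theorem tab1 (a : Fin 30) : ∃ i j l : Fin 30, tau a.val i.val j.val l.val = true := by
  obtain ⟨h1, h2⟩ := an_spec (allB_spec chk1_all a.val a.isLt)
  obtain ⟨h3, h4⟩ := an_spec h1
  obtain ⟨h5, h6⟩ := an_spec h4
  exact ⟨⟨_, Nat.le_of_ble_eq_true h3⟩, ⟨_, Nat.le_of_ble_eq_true h5⟩,
    ⟨_, Nat.le_of_ble_eq_true h6⟩, h2⟩

theorem chk2_all : allB 30 (fun a => chk1 a a (d5 T2B (10 * a)) (d5 T2B (10 * a + 5))) = true := by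
  decide +kernel

/-- **Table for degree two.** -/
theorem tab2 (a : Fin 30) : ∃ i j : Fin 30, tau a.val a.val i.val j.val = true := by
  obtain ⟨h1, h2⟩ := an_spec (allB_spec chk2_all a.val a.isLt)
  obtain ⟨_, h4⟩ := an_spec h1
  obtain ⟨h5, h6⟩ := an_spec h4
  exact ⟨⟨_, Nat.le_of_ble_eq_true h5⟩, ⟨_, Nat.le_of_ble_eq_true h6⟩, h2⟩

end Helper47.RB
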