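import Pool.Agent.Helper47.RB.Fin4
import Pool.Agent.Helper47.RB.D3
import Pool.Agent.Helper49.RC.Asm3

/-!
# Project RB: the rigid local algebra in characteristic two
-/

namespace Helper47.RB

open MvPolynomial Helper49.RA

universe u

theorem b3_all (k : Type u) [Field k] (h2 : (2 : k) = 0)
    (Φ : MvPolynomial (Fin 30) k →ₗ[k] k) (hΦ : IsPh k Φ) : ∀ u ∈ reps, B3 Φ u := by
  intro u hu
  unfold reps at hu
  simp only [List.mem_cons, List.not_mem_nil, or_false] at hu
  rcases hu with rfl | rfl | rfl | rfl | rfl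
  · exact_mod_cast base3 h2 hΦ (by norm_num) c3_0
  · exact_mod_cast base3 h2 hΦ (by norm_num) c3_1
  · exact_mod_cast base3 h2 hΦ (by norm_num) c3_2
  · exact_mod_cast base3 h2 hΦ (by norm_num) c3_4
  · exact_mod_cast base3 h2 hΦ (by norm_num) c3_8

/-- **Characteristic two.** -/
theorem char_two (k : Type u) [Field k] [IsAlgClosed k] (h2 : (2 : k) = 0) :
    ∃ (A : Type u) (_ : CommRing A) (_ : Algebra k A) (_ : IsLocalRing A)
      (_ : Module.Finite k A), 2 ≤ Module.finrank k A ∧ Helper47.Rig.Rigid k A :=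
  Helper49.RC.two_of_reps k (b3_all k h2) (b4_all k h2) (b5_all k h2)

end Helper47.RB
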