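import Pool.Agent.Helper47.RB.D4_0
import Pool.Agent.Helper47.RB.D4_1
import Pool.Agent.Helper47.RB.D4_2
import Pool.Agent.Helper47.RB.D4_4
import Pool.Agent.Helper47.RB.D4_8
import Pool.Agent.Helper47.RB.D5

/-!
# Project RB: degrees four and five, all representatives
-/

namespace Helper47.RB

open MvPolynomial Helper49.RA

universe u

theorem b4_all (k : Type u) [Field k] (h2 : (2 : k) = 0)
    (Φ : MvPolynomial (Fin 30) k →ₗ[k] k) (hΦ : IsPh k Φ) : ∀ u ∈ reps, B4 Φ u := by
  intro u hu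
  unfold reps at hu
  simp only [List.mem_cons, List.not_mem_nil, or_false] at hu
  rcases hu with rfl | rfl | rfl | rfl | rfl
  · exact_mod_cast base4 h2 hΦ (by norm_num) c4_0
  · exact_mod_cast base4 h2 hΦ (by norm_num) c4_1
  · exact_mod_cast base4 h2 hΦ (by norm_num) c4_2
  · exact_mod_cast base4 h2 hΦ (by norm_num) c4_4
  · exact_mod_cast base4 h2 hΦ (by norm_num) c4_8

theorem b5_all (k : Type u) [Field k] (h2 : (2 : k) = 0)
    (Φ : MvPolynomial (Fin 30) k →ₗ[k] k) (hΦ : IsPh k Φ) (h4 : H4 Φ) :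
    ∀ u ∈ reps, B5 Φ u := by
  intro u hu
  unfold reps at hu
  simp only [List.mem_cons, List.not_mem_nil, or_false] at hu
  rcases hu with rfl | rfl | rfl | rfl | rfl
  · exact_mod_cast base5 h2 hΦ h4 (by norm_num) c5_0
  · exact_mod_cast base5 h2 hΦ h4 (by norm_num) c5_1
  · exact_mod_cast base5 h2 hΦ h4 (by norm_num) c5_2
  · exact_mod_cast base5 h2 hΦ h4 (by norm_num) c5_4
  · exact_mod_cast base5 h2 hΦ h4 (by norm_num) c5_8

end Helper47.RB
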