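import Pool.Agent.Helper47.RB.P3

/-!
# Project RB: degree three, one weight
-/

namespace Helper47.RB

open Finset MvPolynomial Helper49.RA Helper49.RC

universe u

/-- the third variable of a cubic monomial of weight `u` -/
def th (u a b : ℕ) : ℕ :=
  bi (Nat.mod (Nat.sub (Nat.add u 122) (Nat.add (Wt a) (Wt b))) 61)

/-- the condition for a term -/
noncomputable def cA (u a x y b : ℕ) : Bool :=
  an (Nat.ble (Nat.succ (th u a b)) 30) (an (Nat.ble b (th u a b))
    (an (eqB (Nat.beq b a) (Nat.beq (th u a b) a)) (tau b (th u a b) x y)))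

/-- the row of the derivative by `a` and the monomial `x, y` -/
noncomputable def rA (u a x y : ℕ) : ℕ := xorN 30 fun b =>
  Bool.rec 0 (Nat.pow 2 (Nat.add (Nat.mul 30 a) b)) (cA u a x y b)

/-- first symmetry -/
def rB (a b : ℕ) : ℕ :=
  Nat.xor (Nat.pow 2 (Nat.add (Nat.mul 30 a) b)) (Nat.pow 2 (Nat.add (Nat.mul 30 b) a))

/-- second symmetry -/
noncomputable def rC (u a b : ℕ) : ℕ :=
  Bool.rec 0 (Nat.xor (Nat.pow 2 (Nat.add (Nat.mul 30 a) b))
    (Nat.pow 2 (Nat.add (Nat.mul 30 a) (th u a b)))) (Nat.ble (Nat.succ (th u a b)) 30)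

/-- code of a row -/
def r3 (R i : ℕ) : ℕ := Nat.mod (Nat.shiftRight R (Nat.mul 17 i)) 131072

/-- a row from its code -/
noncomputable def ro3 (u a x y t : ℕ) : ℕ :=
  Bool.rec (Bool.rec (rC u a x) (rB a x) (Nat.beq t 1)) (rA u a x y) (Nat.beq t 0)

/-- the row `i` -/
noncomputable def row3 (u R i : ℕ) : ℕ :=
  ro3 u (Nat.mod (r3 R i) 32) (Nat.mod (Nat.shiftRight (r3 R i) 5) 32)
    (Nat.mod (Nat.shiftRight (r3 R i) 10) 32) (Nat.shiftRight (r3 R i) 15)

/-- the check of a code -/
noncomputable def oc3 (u a x y t : ℕ) : Bool :=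
  an (an (Nat.ble (Nat.succ a) 30) (Nat.ble (Nat.succ x) 30))
    (Bool.rec true (an (Nat.ble (Nat.succ y) 30)
      (Nat.beq (Nat.mod (Nat.sub (Nat.add (Wt a) 122) (Nat.add (Wt x) (Wt y))) 61) u))
      (Nat.beq t 0))

/-- the check of the codes -/
noncomputable def ok3 (u R n : ℕ) : Bool :=
  allB n fun i => oc3 u (Nat.mod (r3 R i) 32) (Nat.mod (Nat.shiftRight (r3 R i) 5) 32)
    (Nat.mod (Nat.shiftRight (r3 R i) 10) 32) (Nat.shiftRight (r3 R i) 15)

/-- the check of the mask -/
noncomputable def okM3 (u M : ℕ) : Bool :=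
  allB 30 fun a => allB 30 fun b =>
    Bool.rec true (Nat.ble 30 (th u a b))
      (Nat.beq (Nat.mod (Nat.shiftRight M (Nat.add (Nat.mul 30 a) b)) 2) 1)

/-- the complete check in degree three -/
noncomputable def chk3 (u M R n t P nc : ℕ) : Bool :=
  an (an (ok3 u R n) (okM3 u M)) (chk 900 (row3 u R) n t P nc M)

lemma th_of {u a b c : ℕ} (hu : u < 61) (ha : a < 30) (hb : b < 30) (hc : c < 30)
    (h : (Wt a + Wt b + Wt c) % 61 = u) : th u a b = c := by
  have ha' := wt_lt a ha
  have hb' := wt_lt b hb
  have hc' := wt_lt c hc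
  have h1 : (u + 122 - (Wt a + Wt b)) % 61 = Wt c := by omega
  have h2 : th u a b = bi ((u + 122 - (Wt a + Wt b)) % 61) := rfl
  rw [h2, h1, bi_wt c hc]

lemma th_w {u a b : ℕ} (hu : u < 61) (ha : a < 30) (hb : b < 30) (h : th u a b < 30) :
    (Wt a + Wt b + Wt (th u a b)) % 61 = u := by
  have ha' := wt_lt a ha
  have hb' := wt_lt b hb
  have h2 : th u a b = bi ((u + 122 - (Wt a + Wt b)) % 61) := rfl
  have h1 : Wt (th u a b) = (u + 122 - (Wt a + Wt b)) % 61 := by
    rw [h2]
    apply wt_bi _ (Nat.mod_lt _ (by norm_num))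
    rw [← h2]
    exact h
  rw [h1]
  omega

variable {k : Type u} [Field k]

/-- the vector of unknowns -/
noncomputable def y3 (u : ℕ) (T : Fin 30 → Fin 30 → Fin 30 → k) (i : ℕ) : k :=
  if h : th u (i / 30) (i % 30) < 30 then
    T ⟨i / 30 % 30, Nat.mod_lt _ (by norm_num)⟩ ⟨i % 30, Nat.mod_lt _ (by norm_num)⟩
      ⟨th u (i / 30) (i % 30), h⟩
  else 0

lemma y3_eq (u : ℕ) (T : Fin 30 → Fin 30 → Fin 30 → k) (v a : Fin 30)
    (h : th u v.val a.val < 30) :
    y3 u T (30 * v.val + a.val) = T v a ⟨th u v.val a.val, h⟩ := by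
  have h1 : (30 * v.val + a.val) / 30 = v.val := by have := a.isLt; omega
  have h2 : (30 * v.val + a.val) % 30 = a.val := by have := a.isLt; omega
  unfold y3
  simp only [h1, h2]
  rw [dif_pos h]
  congr 1
  · exact Fin.ext (Nat.mod_eq_of_lt v.isLt)

lemma y3_zero (u : ℕ) (T : Fin 30 → Fin 30 → Fin 30 → k) (v a : Fin 30)
    (h : ¬ th u v.val a.val < 30) : y3 u T (30 * v.val + a.val) = 0 := by
  have h1 : (30 * v.val + a.val) / 30 = v.val := by have := a.isLt; omega
  have h2 : (30 * v.val + a.val) % 30 = a.val := by have := a.isLt; omega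
  unfold y3
  simp only [h1, h2]
  rw [dif_neg h]

lemma y3_w {u : ℕ} (hu : u < 61) (T : Fin 30 → Fin 30 → Fin 30 → k) (a b c : Fin 30)
    (h : (Wt a.val + Wt b.val + Wt c.val) % 61 = u) :
    y3 u T (30 * a.val + b.val) = T a b c := by
  have h1 := th_of hu a.isLt b.isLt c.isLt h
  have h2 : th u a.val b.val < 30 := by rw [h1]; exact c.isLt
  rw [y3_eq u T a b h2]
  congr 1
  exact Fin.ext h1

lemma mask3 {u M : ℕ} (h : okM3 u M = true) (T : Fin 30 → Fin 30 → Fin 30 → k) :
    MZ 900 (y3 u T) M := by
  intro i hi hb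
  have hv : i / 30 < 30 := by omega
  have ha : i % 30 < 30 := Nat.mod_lt _ (by norm_num)
  have e : i = 30 * (i / 30) + i % 30 := by omega
  have h1 := allB_spec (allB_spec h (i / 30) hv) (i % 30) ha
  have h2 : Nat.beq (Nat.mod (Nat.shiftRight M (Nat.add (Nat.mul 30 (i / 30)) (i % 30))) 2) 1 =
      true := by
    rw [Nat.beq_eq]
    have h3 : Nat.add (Nat.mul 30 (i / 30)) (i % 30) = i := e.symm
    rw [h3]
    rw [Nat.testBit_eq_decide_div_mod_eq] at hb
    have h4 : M / 2 ^ i % 2 = 1 := of_decide_eq_true hb
    show (M >>> i) % 2 = 1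
    rw [Nat.shiftRight_eq_div_pow]
    exact h4
  rw [h2] at h1
  rw [e]
  apply y3_zero u T ⟨i / 30, hv⟩ ⟨i % 30, ha⟩
  have h5 : 30 ≤ th u (i / 30) (i % 30) := Nat.le_of_ble_eq_true h1
  show ¬ th u (i / 30) (i % 30) < 30
  omega

/-- the rows of the derivatives -/
lemma rA_sound (h2 : (2 : k) = 0) {u : ℕ} (hu : u < 61) (T : Fin 30 → Fin 30 → Fin 30 → k)
    (a x y : Fin 30) (hw : (Wt a.val + 122 - (Wt x.val + Wt y.val)) % 61 = u) :
    LL 900 (y3 u T) (rA u a.val x.val y.val) = ∑ b : Fin 30, ∑ c : Fin 30, (if b ≤ c then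
      T a b c * (1 + (if b = a then 1 else 0) + (if c = a then 1 else 0)) *
        (if tau b.val c.val x.val y.val then 1 else 0) else 0) := by
  unfold rA
  rw [xorN_spec h2, Finset.sum_range]
  refine sum_congr rfl fun b _ => ?_
  have hx := wt_lt x.val x.isLt
  have hy := wt_lt y.val y.isLt
  have ha := wt_lt a.val a.isLt
  have hb := wt_lt b.val b.isLt
  have key : ∀ c : Fin 30, tau b.val c.val x.val y.val = true → th u a.val b.val = c.val := by
    intro c hc
    have h3 := tau_wt hc
    have hc' := wt_lt c.val c.isLt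
    apply th_of hu a.isLt b.isLt c.isLt
    omega
  by_cases hth : th u a.val b.val < 30
  · rw [sum_eq_single (⟨th u a.val b.val, hth⟩ : Fin 30)]
    · have e1 : Nat.ble (Nat.succ (th u a.val b.val)) 30 = true := Nat.ble_eq_true_of_le hth
      have e2 : cA u a.val x.val y.val b.val = an (Nat.ble b.val (th u a.val b.val))
          (an (eqB (Nat.beq b.val a.val) (Nat.beq (th u a.val b.val) a.val))
          (tau b.val (th u a.val b.val) x.val y.val)) := by
        unfold cA
        rw [e1]
        rfl
      rw [e2]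
      by_cases h3 : b.val ≤ th u a.val b.val
      · have e3 : Nat.ble b.val (th u a.val b.val) = true := Nat.ble_eq_true_of_le h3
        have h3' : b ≤ (⟨th u a.val b.val, hth⟩ : Fin 30) := h3
        rw [e3, if_pos h3']
        have e4 : ∀ z : Bool, an true z = z := fun _ => rfl
        rw [e4]
        have p2 : ∀ z : Bool, (z = true ↔ False) → z = false := by
          intro z hz; cases z <;> simp_all
        by_cases h4 : b = a
        · have e5 : Nat.beq b.val a.val = true := by rw [Nat.beq_eq, h4]
          by_cases h5 : (⟨th u a.val b.val, hth⟩ : Fin 30) = a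
          · have e6 : Nat.beq (th u a.val b.val) a.val = true := by
              rw [Nat.beq_eq]; exact congrArg Fin.val h5
            rw [e5, e6, if_pos h4, if_pos h5]
            have e7 : eqB true true = true := rfl
            rw [e7, e4]
            have e8 : (1 : k) + 1 + 1 = 1 := by
              have : (1 : k) + 1 + 1 = 2 + 1 := by norm_num
              rw [this, h2, zero_add]
            rw [e8, mul_one]
            cases h6 : tau b.val (th u a.val b.val) x.val y.val with
            | true =>
              rw [if_pos rfl, mul_one]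
              show LL 900 (y3 u T) (Nat.pow 2 (Nat.add (Nat.mul 30 a.val) b.val)) = _
              rw [LL_pow _ (by have := a.isLt; have := b.isLt; show 30 * a.val + b.val < 900; omega)]
              exact y3_eq u T a b hth
            | false =>
              rw [if_neg (by simp), mul_zero]
              exact LL_zero _ _
          · have e6 : Nat.beq (th u a.val b.val) a.val = false := by
              apply p2
              rw [Nat.beq_eq]
              exact iff_false_intro fun h => h5 (Fin.ext h)
            rw [e5, e6, if_pos h4, if_neg h5]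
            have e7 : eqB true false = false := rfl
            rw [e7]
            have e8 : (1 : k) + 1 + 0 = 0 := by
              have : (1 : k) + 1 + 0 = 2 := by norm_num
              rw [this, h2]
            rw [e8, mul_zero, zero_mul]
            exact LL_zero _ _
        · have e5 : Nat.beq b.val a.val = false := by
            apply p2
            rw [Nat.beq_eq]
            exact iff_false_intro fun h => h4 (Fin.ext h)
          by_cases h5 : (⟨th u a.val b.val, hth⟩ : Fin 30) = a
          · have e6 : Nat.beq (th u a.val b.val) a.val = true := by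
              rw [Nat.beq_eq]; exact congrArg Fin.val h5
            rw [e5, e6, if_neg h4, if_pos h5]
            have e7 : eqB false true = false := rfl
            rw [e7]
            have e8 : (1 : k) + 0 + 1 = 0 := by
              have : (1 : k) + 0 + 1 = 2 := by norm_num
              rw [this, h2]
            rw [e8, mul_zero, zero_mul]
            exact LL_zero _ _
          · have e6 : Nat.beq (th u a.val b.val) a.val = false := by
              apply p2
              rw [Nat.beq_eq]
              exact iff_false_intro fun h => h5 (Fin.ext h)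
            rw [e5, e6, if_neg h4, if_neg h5]
            have e7 : eqB false false = true := rfl
            rw [e7, e4, add_zero, add_zero, mul_one]
            cases h6 : tau b.val (th u a.val b.val) x.val y.val with
            | true =>
              rw [if_pos rfl, mul_one]
              show LL 900 (y3 u T) (Nat.pow 2 (Nat.add (Nat.mul 30 a.val) b.val)) = _
              rw [LL_pow _ (by have := a.isLt; have := b.isLt; show 30 * a.val + b.val < 900; omega)]
              exact y3_eq u T a b hth
            | false =>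
              rw [if_neg (by simp), mul_zero]
              exact LL_zero _ _
      · have h3' : ¬ b ≤ (⟨th u a.val b.val, hth⟩ : Fin 30) := h3
        rw [if_neg h3']
        have e3 : Nat.ble b.val (th u a.val b.val) = false := by
          rw [← Bool.not_eq_true]
          intro h; exact h3 (Nat.le_of_ble_eq_true h)
        rw [e3]
        exact LL_zero _ _
    · intro c _ hc
      have h3 : ¬ tau b.val c.val x.val y.val = true := fun h => hc (Fin.ext (key c h).symm)
      rw [if_neg h3, mul_zero]
      split_ifs <;> rfl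
    · intro h
      exact absurd (mem_univ _) h
  · have e1 : cA u a.val x.val y.val b.val = false := by
      have e2 : Nat.ble (Nat.succ (th u a.val b.val)) 30 = false := by
        rw [← Bool.not_eq_true]
        intro h; exact hth (Nat.le_of_ble_eq_true h)
      unfold cA
      rw [e2]
      rfl
    rw [e1]
    rw [show LL 900 (y3 u T) (Bool.rec 0 (Nat.pow 2 (Nat.add (Nat.mul 30 a.val) b.val)) false) = 0
      from LL_zero _ _]
    symm
    apply sum_eq_zero
    intro c _
    have h3 : ¬ tau b.val c.val x.val y.val = true := fun h => hth (by rw [key c h]; exact c.isLt)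
    rw [if_neg h3, mul_zero]
    split_ifs <;> rfl

/-- **Degree three, one weight.** -/
theorem base3 (h2 : (2 : k) = 0) {Φ : MvPolynomial (Fin 30) k →ₗ[k] k} (hΦ : IsPh k Φ)
    {u M R n t P nc : ℕ} (hu : u < 61) (hc : chk3 u M R n t P nc = true) :
    B3 Φ ((u : ℕ) : ZMod 61) := by
  obtain ⟨hc1, hchk⟩ := an_spec hc
  obtain ⟨hR, hM⟩ := an_spec hc1
  intro r hr hd
  let T : Fin 30 → Fin 30 → Fin 30 → k := fun a b c =>
    coeff (Finsupp.single b 1 + Finsupp.single c 1 + Finsupp.single a 1) r
  have hTbl : IsTbl Φ (fun a b c d : Fin 30 =>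
    (if tau a.val b.val c.val d.val then 1 else 0 : k)) := hΦ.val
  have hT1 : ∀ a b c, T a b c = T b a c := by
    intro a b c
    show coeff _ r = coeff _ r
    congr 1
    abel
  have hT2 : ∀ a b c, T a b c = T a c b := by
    intro a b c
    show coeff _ r = coeff _ r
    congr 1
    abel
  have hT : ∀ a x y : Fin 30, ∑ b : Fin 30, ∑ c : Fin 30, (if b ≤ c then
      T a b c * (1 + (if b = a then 1 else 0) + (if c = a then 1 else 0)) *
        (if tau b.val c.val x.val y.val then 1 else 0) else 0) = 0 := by
    intro a x y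
    have h1 := hd a (X x * X y)
    rw [quad_exp hTbl _ hr.pderiv] at h1
    refine Eq.trans ?_ h1
    refine Finset.sum_congr rfl fun b _ => Finset.sum_congr rfl fun c _ => ?_
    by_cases hbc : b ≤ c
    · rw [if_pos hbc, if_pos hbc, coeff_pderiv]
      congr 2
      rw [Finsupp.add_apply, Finsupp.single_apply, Finsupp.single_apply, Nat.cast_add]
      by_cases h2 : b = a <;> by_cases h3 : c = a <;> simp [h2, h3]
    · rw [if_neg hbc, if_neg hbc]
  have dbl : ∀ x : k, x + x = 0 := by
    intro x
    have : x + x = 2 * x := by ring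
    rw [this, h2, zero_mul]
  have hrow : ∀ i < n, LL 900 (y3 u T) (row3 u R i) = 0 := by
    intro i hi
    have h3 := allB_spec hR i hi
    unfold row3
    generalize Nat.mod (r3 R i) 32 = a at h3 ⊢
    generalize Nat.mod (Nat.shiftRight (r3 R i) 5) 32 = x at h3 ⊢
    generalize Nat.mod (Nat.shiftRight (r3 R i) 10) 32 = y at h3 ⊢
    generalize Nat.shiftRight (r3 R i) 15 = t at h3 ⊢
    obtain ⟨h4, h5⟩ := an_spec h3
    obtain ⟨h6, h7⟩ := an_spec h4
    have ka := Nat.le_of_ble_eq_true h6
    have kx := Nat.le_of_ble_eq_true h7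
    have ka' : a < 30 := ka
    have kx' : x < 30 := kx
    unfold ro3
    cases ht0 : Nat.beq t 0 with
    | true =>
      rw [ht0] at h5
      obtain ⟨h8, h9⟩ := an_spec h5
      have ky := Nat.le_of_ble_eq_true h8
      show LL 900 (y3 u T) (rA u a x y) = 0
      rw [rA_sound h2 hu T ⟨a, ka⟩ ⟨x, kx⟩ ⟨y, ky⟩ (Nat.eq_of_beq_eq_true h9)]
      exact hT _ _ _
    | false =>
      cases ht1 : Nat.beq t 1 with
      | true =>
        show LL 900 (y3 u T) (rB a x) = 0
        unfold rB
        rw [LL_xor h2, LL_pow _ (by show 30 * a + x < 900; omega),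
          LL_pow _ (by show 30 * x + a < 900; omega)]
        show y3 u T (30 * a + x) + y3 u T (30 * x + a) = 0
        by_cases hth : th u a x < 30
        · have e1 := th_w hu ka' kx' hth
          have e2 := y3_w hu T ⟨a, ka⟩ ⟨x, kx⟩ ⟨th u a x, hth⟩ e1
          have e3 := y3_w hu T ⟨x, kx⟩ ⟨a, ka⟩ ⟨th u a x, hth⟩ (by
            show (Wt x + Wt a + Wt (th u a x)) % 61 = u
            rw [Nat.add_comm (Wt x)]; exact e1)
          rw [show y3 u T (30 * a + x) = _ from e2, show y3 u T (30 * x + a) = _ from e3,
            hT1 ⟨x, kx⟩ ⟨a, ka⟩]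
          exact dbl _
        · have e0 : th u x a = th u a x := by
            unfold th
            have : Nat.add (Wt x) (Wt a) = Nat.add (Wt a) (Wt x) := Nat.add_comm _ _
            rw [this]
          have e1 := y3_zero u T ⟨a, ka⟩ ⟨x, kx⟩ hth
          have e2 := y3_zero u T ⟨x, kx⟩ ⟨a, ka⟩ (by
            show ¬ th u x a < 30
            rw [e0]; exact hth)
          rw [show y3 u T (30 * a + x) = _ from e1, show y3 u T (30 * x + a) = _ from e2,
            add_zero]
      | false =>
        show LL 900 (y3 u T) (rC u a x) = 0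
        unfold rC
        cases hb : Nat.ble (Nat.succ (th u a x)) 30 with
        | false => exact LL_zero _ _
        | true =>
          have hth : th u a x < 30 := Nat.le_of_ble_eq_true hb
          show LL 900 (y3 u T) (Nat.xor (Nat.pow 2 (Nat.add (Nat.mul 30 a) x))
            (Nat.pow 2 (Nat.add (Nat.mul 30 a) (th u a x)))) = 0
          rw [LL_xor h2, LL_pow _ (by show 30 * a + x < 900; omega),
            LL_pow _ (by show 30 * a + th u a x < 900; omega)]
          show y3 u T (30 * a + x) + y3 u T (30 * a + th u a x) = 0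
          have e1 := th_w hu ka' kx' hth
          have e2 := y3_w hu T ⟨a, ka⟩ ⟨x, kx⟩ ⟨th u a x, hth⟩ e1
          have e3 := y3_w hu T ⟨a, ka⟩ ⟨th u a x, hth⟩ ⟨x, kx⟩ (by
            show (Wt a + Wt (th u a x) + Wt x) % 61 = u
            rw [Nat.add_right_comm]; exact e1)
          rw [show y3 u T (30 * a + x) = _ from e2,
            show y3 u T (30 * a + th u a x) = _ from e3, hT2 ⟨a, ka⟩ ⟨th u a x, hth⟩]
          exact dbl _
  have hy := chk_sound h2 hrow (mask3 hM T) hchk
  intro i j l hw
  have hw' : (Wt l.val + Wt i.val + Wt j.val) % 61 = u := by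
    unfold w at hw
    have h6 : ((Wt l.val + Wt i.val + Wt j.val : ℕ) : ZMod 61) = ((u : ℕ) : ZMod 61) := by
      rw [← hw]; push_cast; ring
    have h7 := (ZMod.natCast_eq_natCast_iff' _ _ 61).1 h6
    rw [h7, Nat.mod_eq_of_lt hu]
  have h3 := y3_w hu T l i j hw'
  rw [hy _ (by have := l.isLt; have := i.isLt; omega)] at h3
  exact h3.symm

end Helper47.RB
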