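import Pool.Agent.Helper47.RB.P3

/-!
# Project RB: degree four, one weight
-/

namespace Helper47.RB

open Finset MvPolynomial Helper49.RA Helper49.RC Helper47.RK

universe u

/-- the complementary class -/
def co (u c : ℕ) : ℕ := Nat.mod (Nat.sub (Nat.add u 61) c) 61

/-- the code of the quartic monomial with number `p` -/
def ca (ML p : ℕ) : ℕ := Nat.mod (Nat.shiftRight ML (Nat.mul 90 p)) (Nat.pow 2 90)

/-- the number of the product of the monomials `i` of class `c` and `j` -/
def lo (LC st c i j : ℕ) : ℕ :=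
  Nat.mod (Nat.shiftRight LC
    (Nat.mul 10 (Nat.add (Nat.mul st c) (Nat.add i (Nat.mul (n2 c) j))))) 1024

/-- the check of the numbers -/
noncomputable def okL (u N ML LC st : ℕ) : Bool :=
  allB 61 fun c => allB (n2 c) fun i => allB (n2 (co u c)) fun j =>
    an (Nat.ble (Nat.succ (lo LC st c i j)) N)
      (Nat.beq (ca ML (lo LC st c i j)) (Nat.add (cd c i) (cd (co u c) j)))

/-- the row of the product of the quadrics `q` of class `c` and `q'` -/
noncomputable def rwQ (LC st c q q' : ℕ) : ℕ :=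
  xorN (qn q) fun e => xorN (qn q') fun e' => Nat.pow 2 (lo LC st c (qi q e) (qi q' e'))

/-- number of terms of the test element `a` -/
def en (E a : ℕ) : ℕ := Nat.mod (Nat.shiftRight E (Nat.add (Nat.mul 128 a) 120)) 8

/-- number of the monomial of a term -/
def ep (E a e : ℕ) : ℕ := Nat.mod (Nat.shiftRight E (Nat.add (Nat.mul 128 a) (Nat.mul 30 e))) 1024

/-- variables of a term -/
def ev (E a e z : ℕ) : ℕ := d5 E (Nat.add (Nat.add (Nat.mul 128 a) (Nat.mul 30 e)) z)

/-- the row of the test element -/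
noncomputable def rwE (E a : ℕ) : ℕ := xorN (en E a) fun e => Nat.pow 2 (ep E a e)

/-- the values of the functionals at a monomial -/
noncomputable def DD (u i j l n : ℕ) : ℕ :=
  Nat.xor (F4 u 0 i j l n) (Bool.rec 0 (Nat.pow 2 30) (an (Nat.beq u 0) (tau i j l n)))

/-- check of one term of a test element -/
noncomputable def okT (u N ML p i j l n : ℕ) : Bool :=
  an (an (Nat.ble (Nat.succ p) N) (an (an (Nat.ble (Nat.succ i) 30) (Nat.ble (Nat.succ j) 30))
    (an (Nat.ble (Nat.succ l) 30) (Nat.ble (Nat.succ n) 30))))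
    (an (Nat.beq (ca ML p) (Nat.add (Nat.add (Nat.pow 8 i) (Nat.pow 8 j))
      (Nat.add (Nat.pow 8 l) (Nat.pow 8 n))))
      (Nat.beq (Nat.mod (Nat.add (Nat.add (Wt i) (Wt j)) (Nat.add (Wt l) (Wt n))) 61) u))

/-- check of a test element -/
noncomputable def okE4 (u N ML E DM a : ℕ) : Bool :=
  an (allB (en E a) fun e => okT u N ML (ep E a e) (ev E a e 10) (ev E a e 15) (ev E a e 20)
      (ev E a e 25))
    (Bool.rec
      (Nat.beq (Nat.land (xorN (en E a) fun e => DD u (ev E a e 10) (ev E a e 15) (ev E a e 20)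
        (ev E a e 25)) DM) (Nat.pow 2 a))
      (Nat.beq (Nat.mod (Nat.shiftRight DM a) 2) 0) (Nat.beq (en E a) 0))

/-- code of the row `i` -/
def rc (R i : ℕ) : ℕ := Nat.mod (Nat.shiftRight R (Nat.mul 16 i)) 65536

/-- the row `i` -/
noncomputable def row4 (u LC st E R i : ℕ) : ℕ :=
  Bool.rec (rwE E (Nat.mod (rc R i) 32))
    (rwQ LC st (Nat.mod (rc R i) 64) (qq (Nat.mod (rc R i) 64)
      (Nat.mod (Nat.shiftRight (rc R i) 6) 16))
      (qq (co u (Nat.mod (rc R i) 64)) (Nat.mod (Nat.shiftRight (rc R i) 10) 16)))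
    (Nat.beq (Nat.shiftRight (rc R i) 14) 0)

/-- check of the codes of the rows -/
noncomputable def okR (R n : ℕ) : Bool :=
  allB n fun i => Bool.rec (Nat.ble (Nat.succ (Nat.mod (rc R i) 32)) 31)
    (an (Nat.ble (Nat.succ (Nat.mod (rc R i) 64)) 61)
      (an (Nat.ble (Nat.succ (Nat.mod (Nat.shiftRight (rc R i) 6) 16)) 14)
        (Nat.ble (Nat.succ (Nat.mod (Nat.shiftRight (rc R i) 10) 16)) 14)))
    (Nat.beq (Nat.shiftRight (rc R i) 14) 0)

/-- the complete check in degree four -/
noncomputable def chk4 (u N ML LC st E DM R n t P nc : ℕ) : Bool :=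
  an (an (okL u N ML LC st) (an (allB 31 fun a => okE4 u N ML E DM a) (okR R n)))
    (chk N (row4 u LC st E R) n t P nc 0)

lemma co_lt (u c : ℕ) : co u c < 61 := Nat.mod_lt _ (by norm_num)

variable {k : Type u} [Field k]

lemma mp_mul {c i d j : ℕ} (hc : c < 61) (hi : i < n2 c) (hd : d < 61) (hj : j < n2 d) :
    mp k c i * mp k d j = mon k (Nat.add (cd c i) (cd d j)) := by
  obtain ⟨h1, h2, _⟩ := pr_ok hc hi
  obtain ⟨h3, h4, _⟩ := pr_ok hd hj
  unfold mp
  rw [xv_eq h1, xv_eq h2, xv_eq h3, xv_eq h4, ← mul_assoc]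
  exact (mon4 ⟨_, h1⟩ ⟨_, h2⟩ ⟨_, h3⟩ ⟨_, h4⟩).symm

/-- linear combinations of products of monomials -/
lemma rwQ_sound (h2 : (2 : k) = 0) {u N ML LC st : ℕ} (hL : okL u N ML LC st = true)
    (G : MvPolynomial (Fin 30) k →ₗ[k] k) {c s t : ℕ} (hc : c < 61) (hs : s < 14) (ht : t < 14) :
    LL N (fun p => G (mon k (ca ML p))) (rwQ LC st c (qq c s) (qq (co u c) t)) =
      G (QP k c (qq c s) * QP k (co u c) (qq (co u c) t)) := by
  unfold rwQ QP
  rw [xorN_spec h2, sum_mul, map_sum]
  refine sum_congr rfl fun e he => ?_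
  rw [xorN_spec h2, mul_sum, map_sum]
  refine sum_congr rfl fun e' he' => ?_
  have h3 := qi_lt hc hs (mem_range.1 he)
  have h4 := qi_lt (co_lt u c) ht (mem_range.1 he')
  obtain ⟨h5, h6⟩ := an_spec (allB_spec (allB_spec (allB_spec hL c hc) _ h3) _ h4)
  rw [LL_pow _ (Nat.le_of_ble_eq_true h5), mp_mul hc h3 (co_lt u c) h4]
  rw [Nat.eq_of_beq_eq_true h6]

/-- the bits outside the mask do not matter -/
lemma LL_land {N : ℕ} {y : ℕ → k} {M : ℕ} (hM : ∀ i < N, M.testBit i = false → y i = 0)
    (r : ℕ) : LL N y (Nat.land r M) = LL N y r := by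
  unfold LL
  refine sum_congr rfl fun i hi => ?_
  have h1 : (Nat.land r M).testBit i = (r.testBit i && M.testBit i) := Nat.testBit_and _ _ _
  rw [h1]
  cases h2 : M.testBit i with
  | true => rw [Bool.and_true]
  | false => rw [hM i (mem_range.1 hi) h2, Bool.and_false]; split_ifs <;> rfl

/-- the coefficients -/
noncomputable def m31 (G : MvPolynomial (Fin 30) k →ₗ[k] k) (E a : ℕ) : k :=
  ∑ e ∈ range (en E a), G (xv k (ev E a e 10) * xv k (ev E a e 15) * xv k (ev E a e 20) *
    xv k (ev E a e 25))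

/-- **Degree four, one weight.** -/
theorem base4 (h2 : (2 : k) = 0) {Φ : MvPolynomial (Fin 30) k →ₗ[k] k} (hΦ : IsPh k Φ)
    {u N ML LC st E DM R n t P nc : ℕ} (hu : u < 61)
    (hc : chk4 u N ML LC st E DM R n t P nc = true) : B4 Φ ((u : ℕ) : ZMod 61) := by
  obtain ⟨hc1, hchk⟩ := an_spec hc
  obtain ⟨hL, hc2⟩ := an_spec hc1
  obtain ⟨hE, hR⟩ := an_spec hc2
  intro G hG
  let β : k := if u = 0 then m31 G E 30 else 0
  let m : Fin 30 → Fin 30 → k := fun a b => if bw u a.val = b.val then m31 G E a.val else 0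
  let G1 : MvPolynomial (Fin 30) k →ₗ[k] k := G - β • Φ - ∑ a : Fin 30, ∑ b : Fin 30,
    m a b • (Φ ∘ₗ LinearMap.mulLeft k (X b) ∘ₗ (pderiv a).toLinearMap)
  have hG1 : ∀ s, G1 s = G s - β * Φ s - ∑ a : Fin 30, ∑ b : Fin 30,
      m a b * Φ (X b * pderiv a s) := by
    intro s
    simp only [G1, LinearMap.sub_apply, LinearMap.smul_apply, LinearMap.sum_apply,
      LinearMap.comp_apply, smul_eq_mul, LinearMap.mulLeft_apply,
      Derivation.coeFn_coe]
  have hK : ∀ s ∈ annI Φ ^ 2, G1 s = 0 := by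
    intro s hs
    rw [hG1, hG s hs, phi_ann (sq_le hs)]
    have : ∑ a : Fin 30, ∑ b : Fin 30, m a b * Φ (X b * pderiv a s) = 0 := by
      refine sum_eq_zero fun a _ => sum_eq_zero fun b _ => ?_
      rw [phi_ann (Ideal.mul_mem_left _ _ (pd_sq hs a)), mul_zero]
    rw [this]
    ring
  -- zero outside the mask
  have hDM : ∀ i < 31, DM.testBit i = false → m31 G E i = 0 := by
    intro i hi hb
    obtain ⟨_, h4⟩ := an_spec (allB_spec hE i hi)
    cases h5 : Nat.beq (en E i) 0 with
    | true =>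
      have h6 := Nat.eq_of_beq_eq_true h5
      unfold m31
      rw [h6, range_zero, sum_empty]
    | false =>
      rw [h5] at h4
      have h6 := Nat.eq_of_beq_eq_true h4
      have h7 : (Nat.land (xorN (en E i) fun e => DD u (ev E i e 10) (ev E i e 15) (ev E i e 20)
        (ev E i e 25)) DM).testBit i = (2 ^ i).testBit i := by rw [h6]; rfl
      have h8 : (Nat.land (xorN (en E i) fun e => DD u (ev E i e 10) (ev E i e 15) (ev E i e 20)
        (ev E i e 25)) DM).testBit i = _ := Nat.testBit_and _ _ _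
      rw [h8, hb, Bool.and_false, Nat.testBit_two_pow_self] at h7
      exact absurd h7 (by simp)
  -- the values at monomials
  have hval : ∀ i j l n : Fin 30, (Wt i.val + Wt j.val + (Wt l.val + Wt n.val)) % 61 = u →
      G1 (X i * X j * X l * X n) = G (X i * X j * X l * X n) -
        LL 31 (m31 G E) (DD u i.val j.val l.val n.val) := by
    intro i j l n hw
    have h4 := F4_sound h2 hΦ hu (N := 31) (sh := 0) (y := m31 G E) (m := m) (by norm_num)
      (by
        intro a h
        show m31 G E (0 + a.val) = if bw u a.val = bw u a.val then m31 G E a.val else 0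
        rw [if_pos rfl, zero_add]) i j l n hw
    rw [hG1, h4]
    unfold DD
    rw [LL_xor h2]
    have h5 : LL 31 (m31 G E) (Bool.rec 0 (Nat.pow 2 30)
        (an (Nat.beq u 0) (tau i.val j.val l.val n.val))) =
        β * Φ (X i * X j * X l * X n) := by
      rw [hΦ.val]
      by_cases hu0 : u = 0
      · subst hu0
        have e1 : an (Nat.beq 0 0) (tau i.val j.val l.val n.val) =
            tau i.val j.val l.val n.val := rfl
        rw [e1]
        have e2 : β = m31 G E 30 := if_pos rfl
        rw [e2]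
        cases tau i.val j.val l.val n.val with
        | true =>
          rw [if_pos rfl, mul_one]
          exact LL_pow _ (by norm_num)
        | false =>
          rw [if_neg (by simp), mul_zero]
          exact LL_zero _ _
      · have e1 : Nat.beq u 0 = false := by
          rw [← Bool.not_eq_true]
          intro h; exact hu0 (Nat.eq_of_beq_eq_true h)
        have e2 : β = 0 := if_neg hu0
        rw [e1, e2, zero_mul]
        exact LL_zero _ _
    rw [h5]
    ring
  -- the rows
  have hrow : ∀ i < n, LL N (fun p => G1 (mon k (ca ML p))) (row4 u LC st E R i) = 0 := by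
    intro i hi
    have h4 := allB_spec hR i hi
    unfold row4
    cases h5 : Nat.beq (Nat.shiftRight (rc R i) 14) 0 with
    | true =>
      rw [h5] at h4
      obtain ⟨h6, h7⟩ := an_spec h4
      obtain ⟨h8, h9⟩ := an_spec h7
      have k1 := Nat.le_of_ble_eq_true h6
      have k2 := Nat.le_of_ble_eq_true h8
      have k3 := Nat.le_of_ble_eq_true h9
      refine (rwQ_sound h2 hL G1 k1 k2 k3).trans ?_
      apply hK
      rw [pow_two]
      exact Ideal.mul_mem_mul (QP_mem h2 hΦ k1 k2) (QP_mem h2 hΦ (co_lt _ _) k3)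
    | false =>
      rw [h5] at h4
      have ha : Nat.mod (rc R i) 32 < 31 := Nat.le_of_ble_eq_true h4
      show LL N _ (rwE E (Nat.mod (rc R i) 32)) = 0
      generalize Nat.mod (rc R i) 32 = a at ha
      obtain ⟨h6, h7⟩ := an_spec (allB_spec hE a ha)
      unfold rwE
      rw [xorN_spec h2]
      have h8 : ∀ e ∈ range (en E a), LL N (fun p => G1 (mon k (ca ML p))) (Nat.pow 2 (ep E a e)) =
          G (xv k (ev E a e 10) * xv k (ev E a e 15) * xv k (ev E a e 20) * xv k (ev E a e 25)) -
            LL 31 (m31 G E) (DD u (ev E a e 10) (ev E a e 15) (ev E a e 20) (ev E a e 25)) := by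
        intro e he
        obtain ⟨g1, g2⟩ := an_spec (allB_spec h6 e (mem_range.1 he))
        obtain ⟨g3, g4⟩ := an_spec g1
        obtain ⟨g5, g6⟩ := an_spec g4
        obtain ⟨g7, g8⟩ := an_spec g5
        obtain ⟨g9, g10⟩ := an_spec g6
        obtain ⟨g11, g12⟩ := an_spec g2
        have k1 := Nat.le_of_ble_eq_true g7
        have k2 := Nat.le_of_ble_eq_true g8
        have k3 := Nat.le_of_ble_eq_true g9
        have k4 := Nat.le_of_ble_eq_true g10
        rw [LL_pow _ (Nat.le_of_ble_eq_true g3), Nat.eq_of_beq_eq_true g11]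
        rw [xv_eq k1, xv_eq k2, xv_eq k3, xv_eq k4]
        have h9 := hval ⟨_, k1⟩ ⟨_, k2⟩ ⟨_, k3⟩ ⟨_, k4⟩ (Nat.eq_of_beq_eq_true g12)
        rw [← h9]
        exact congrArg G1 (mon4 ⟨_, k1⟩ ⟨_, k2⟩ ⟨_, k3⟩ ⟨_, k4⟩)
      rw [sum_congr rfl h8, sum_sub_distrib]
      have h9 : ∑ e ∈ range (en E a), G (xv k (ev E a e 10) * xv k (ev E a e 15) *
          xv k (ev E a e 20) * xv k (ev E a e 25)) = m31 G E a := rfl
      rw [h9, ← xorN_spec h2 31 (m31 G E) (fun e => DD u (ev E a e 10) (ev E a e 15)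
        (ev E a e 20) (ev E a e 25))]
      cases h10 : Nat.beq (en E a) 0 with
      | true =>
        have h11 := Nat.eq_of_beq_eq_true h10
        have h12 : m31 G E a = 0 := by
          unfold m31
          rw [h11, range_zero, sum_empty]
        rw [h12, h11]
        have h13 : (xorN 0 fun e => DD u (ev E a e 10) (ev E a e 15) (ev E a e 20)
          (ev E a e 25)) = 0 := rfl
        rw [h13, LL_zero, sub_zero]
      | false =>
        rw [h10] at h7
        have h11 := Nat.eq_of_beq_eq_true h7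
        rw [← LL_land hDM, h11, LL_pow _ ha, sub_self]
  have hy := chk_sound h2 hrow (fun i _ hb => by
    rw [Nat.zero_testBit] at hb; exact absurd hb (by simp)) hchk
  -- conclusion
  refine ⟨β, m, ?_, ?_, ?_⟩
  · intro h
    apply if_neg
    intro h3
    apply h
    rw [h3]
    rfl
  · intro a b h
    apply if_neg
    intro h3
    apply h
    have ha := wt_lt a.val a.isLt
    have h4 : Wt b.val = (Wt a.val + 61 - u) % 61 := by
      rw [← h3]
      have h5 : bw u a.val = bi ((Wt a.val + 61 - u) % 61) := rfl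
      rw [h5]
      apply wt_bi _ (Nat.mod_lt _ (by norm_num))
      rw [← h5, h3]
      exact b.isLt
    unfold w
    have h5 : ((Wt b.val + u : ℕ) : ZMod 61) = ((Wt a.val : ℕ) : ZMod 61) := by
      apply (ZMod.natCast_eq_natCast_iff' _ _ 61).2
      omega
    rw [← h5]
    push_cast
    ring
  · intro i j l n hw
    have hw' : (Wt i.val + Wt j.val + (Wt l.val + Wt n.val)) % 61 = u := by
      unfold w at hw
      have h6 : (((Wt i.val + Wt j.val + (Wt l.val + Wt n.val)) : ℕ) : ZMod 61) =
          ((u : ℕ) : ZMod 61) := by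
        rw [← hw]; push_cast; ring
      have h7 := (ZMod.natCast_eq_natCast_iff' _ _ 61).1 h6
      rw [h7, Nat.mod_eq_of_lt hu]
    obtain ⟨e, he, h3⟩ := pair_eq (k := k) i j
    obtain ⟨e', he', h4⟩ := pair_eq (k := k) l n
    have h5 : cs l.val n.val = co u (cs i.val j.val) := by
      have := cs_lt i.val j.val
      show (Wt l.val + Wt n.val) % 61 = (u + 61 - (Wt i.val + Wt j.val) % 61) % 61
      omega
    rw [h5] at he' h4
    obtain ⟨h6, h7⟩ := an_spec (allB_spec (allB_spec (allB_spec hL _ (cs_lt i.val j.val)) _ he)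
      _ he')
    have h8 := hy _ (Nat.le_of_ble_eq_true h6)
    have h9 : (X i * X j * X l * X n : MvPolynomial (Fin 30) k) =
        mon k (ca ML (lo LC st (cs i.val j.val) e e')) := by
      rw [Nat.eq_of_beq_eq_true h7, ← mp_mul (cs_lt _ _) he (co_lt _ _) he', ← h3, ← h4]
      ring
    have h10 : G1 (X i * X j * X l * X n) = 0 := by rw [h9]; exact h8
    rw [hG1] at h10
    linear_combination h10

end Helper47.RB
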