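import Pool.Agent.Helper47.RB.Br

/-!
# Project RB: degree five, one weight
-/

namespace Helper47.RB

open Finset MvPolynomial Helper49.RA

universe u

/-- the class `u - Wt v` -/
def cl (u v : ℕ) : ℕ := Nat.mod (Nat.sub (Nat.add u 61) (Wt v)) 61

/-- the row of the equation `v, v', t` -/
noncomputable def rw5 (u v v' a b c : ℕ) : ℕ :=
  Nat.xor (F4 (cl u v) (Nat.mul 30 v) v' a b c) (F4 (cl u v') (Nat.mul 30 v') v a b c)

/-- the row with number `i` -/
noncomputable def row5 (u E i : ℕ) : ℕ :=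
  rw5 u (d5 E (Nat.mul 25 i)) (d5 E (Nat.add (Nat.mul 25 i) 5))
    (d5 E (Nat.add (Nat.mul 25 i) 10)) (d5 E (Nat.add (Nat.mul 25 i) 15))
    (d5 E (Nat.add (Nat.mul 25 i) 20))

/-- the variables and the weight of an equation -/
noncomputable def ok5 (u v v' a b c : ℕ) : Bool :=
  an (an (an (Nat.ble (Nat.succ v) 30) (Nat.ble (Nat.succ v') 30))
    (an (Nat.ble (Nat.succ a) 30) (an (Nat.ble (Nat.succ b) 30) (Nat.ble (Nat.succ c) 30))))
    (Nat.beq (Nat.mod (Nat.add (Wt v) (Nat.add (Nat.add (Wt v') (Wt a))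
      (Nat.add (Wt b) (Wt c)))) 61) u)

/-- the check of the equations -/
noncomputable def okE (u E n : ℕ) : Bool :=
  allB n fun i => ok5 u (d5 E (Nat.mul 25 i)) (d5 E (Nat.add (Nat.mul 25 i) 5))
    (d5 E (Nat.add (Nat.mul 25 i) 10)) (d5 E (Nat.add (Nat.mul 25 i) 15))
    (d5 E (Nat.add (Nat.mul 25 i) 20))

/-- the check of the mask -/
noncomputable def okM (u M : ℕ) : Bool :=
  allB 30 fun v => allB 30 fun a =>
    Bool.rec true
      (Bool.rec (an (Nat.beq a 0) (Nat.beq (Wt v) u)) true (Nat.ble 30 (bw (cl u v) a)))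
      (Nat.beq (Nat.mod (Nat.shiftRight M (Nat.add (Nat.mul 30 v) a)) 2) 1)

/-- the complete check in degree five -/
noncomputable def chk5 (u M E n : ℕ) : Bool :=
  an (an (okE u E n) (okM u M)) (chk 900 (row5 u E) n 1 0 0 M)

variable {k : Type u} [Field k]

/-- the vector of unknowns -/
noncomputable def y5 (u : ℕ) (g : Fin 30 → Fin 30 → Fin 30 → k) (i : ℕ) : k :=
  if h : bw (cl u (i / 30)) (i % 30) < 30 then
    g ⟨i / 30 % 30, Nat.mod_lt _ (by norm_num)⟩ ⟨i % 30, Nat.mod_lt _ (by norm_num)⟩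
      ⟨bw (cl u (i / 30)) (i % 30), h⟩
  else 0

lemma y5_eq (u : ℕ) (g : Fin 30 → Fin 30 → Fin 30 → k) (v a : Fin 30)
    (h : bw (cl u v.val) a.val < 30) :
    y5 u g (30 * v.val + a.val) = g v a ⟨bw (cl u v.val) a.val, h⟩ := by
  have h1 : (30 * v.val + a.val) / 30 = v.val := by have := a.isLt; omega
  have h2 : (30 * v.val + a.val) % 30 = a.val := by have := a.isLt; omega
  unfold y5
  simp only [h1, h2]
  rw [dif_pos h]
  congr 1
  · exact Fin.ext (Nat.mod_eq_of_lt v.isLt)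

lemma y5_zero (u : ℕ) (g : Fin 30 → Fin 30 → Fin 30 → k) (v a : Fin 30)
    (h : ¬ bw (cl u v.val) a.val < 30) : y5 u g (30 * v.val + a.val) = 0 := by
  have h1 : (30 * v.val + a.val) / 30 = v.val := by have := a.isLt; omega
  have h2 : (30 * v.val + a.val) % 30 = a.val := by have := a.isLt; omega
  unfold y5
  simp only [h1, h2]
  rw [dif_neg h]

lemma cl_lt (u v : ℕ) : cl u v < 61 := Nat.mod_lt _ (by norm_num)

lemma mask5 {u M : ℕ} (h : okM u M = true) (g : Fin 30 → Fin 30 → Fin 30 → k)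
    (hg : ∀ v, g v 0 0 = 0) : MZ 900 (y5 u g) M := by
  intro i hi hb
  have hv : i / 30 < 30 := by omega
  have ha : i % 30 < 30 := Nat.mod_lt _ (by norm_num)
  have e : i = 30 * (i / 30) + i % 30 := by omega
  have h1 := allB_spec (allB_spec h (i / 30) hv) (i % 30) ha
  have h2 : Nat.beq (Nat.mod (Nat.shiftRight M (Nat.add (Nat.mul 30 (i / 30)) (i % 30))) 2) 1 =
      true := by
    rw [Nat.beq_eq]
    have h3 : Nat.add (Nat.mul 30 (i / 30)) (i % 30) = i := e.symm
    rw [h3]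
    rw [Nat.testBit_eq_decide_div_mod_eq] at hb
    have h4 : M / 2 ^ i % 2 = 1 := of_decide_eq_true hb
    show (M >>> i) % 2 = 1
    rw [Nat.shiftRight_eq_div_pow]
    exact h4
  rw [h2] at h1
  rw [e]
  by_cases hbw : bw (cl u (i / 30)) (i % 30) < 30
  · have h3 : Nat.ble 30 (bw (cl u (i / 30)) (i % 30)) = false := by
      rw [← Bool.not_eq_true]
      intro h4
      have := Nat.le_of_ble_eq_true h4
      omega
    rw [h3] at h1
    have h1' : an (Nat.beq (i % 30) 0) (Nat.beq (Wt (i / 30)) u) = true := h1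
    obtain ⟨h5, h6⟩ := an_spec h1'
    have h7 := Nat.eq_of_beq_eq_true h5
    have h8 := Nat.eq_of_beq_eq_true h6
    have h9 := y5_eq u g ⟨i / 30, hv⟩ ⟨i % 30, ha⟩ hbw
    rw [h9]
    have h10 : bw (cl u (i / 30)) (i % 30) = 0 := by
      rw [h7]
      unfold cl
      rw [h8]
      have h11 : Nat.mod (Nat.sub (Nat.add u 61) u) 61 = 0 := by
        show (u + 61 - u) % 61 = 0
        omega
      rw [h11]
      decide
    have h12 : (⟨i % 30, ha⟩ : Fin 30) = 0 := Fin.ext h7
    have h13 : (⟨bw (cl u (i / 30)) (i % 30), hbw⟩ : Fin 30) = 0 := Fin.ext h10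
    show g ⟨i / 30, hv⟩ ⟨i % 30, ha⟩ ⟨bw (cl u (i / 30)) (i % 30), hbw⟩ = 0
    rw [h12, h13]
    exact hg _
  · exact y5_zero u g ⟨i / 30, hv⟩ ⟨i % 30, ha⟩ hbw

/-- **Degree five, one weight.** -/
theorem base5 (h2 : (2 : k) = 0) {Φ : MvPolynomial (Fin 30) k →ₗ[k] k} (hΦ : IsPh k Φ)
    (h4 : H4 Φ) {u M E n : ℕ} (hu : u < 61) (hc : chk5 u M E n = true) :
    B5 Φ ((u : ℕ) : ZMod 61) := by
  obtain ⟨hc1, hchk⟩ := an_spec hc
  obtain ⟨hE, hM⟩ := an_spec hc1
  intro G hG
  have hx : ∀ v : Fin 30, KF Φ (G ∘ₗ LinearMap.mulLeft k (X v)) := fun v s hs =>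
    hG _ (Ideal.mul_mem_left _ _ hs)
  choose β m hm using fun v => h4 _ (hx v)
  -- the difference
  let D : MvPolynomial (Fin 30) k → k := fun s => G s - ∑ a, β a * Φ (pderiv a s)
  let g0 : Fin 30 → Fin 30 → Fin 30 → k := fun v a b => m v a b + if b = v then β a else 0
  let g : Fin 30 → Fin 30 → Fin 30 → k := fun v a b => g0 v a b + if b = a then g0 v 0 0 else 0
  have dbl : ∀ x : k, x + x = 0 := by
    intro x
    have : x + x = 2 * x := by ring
    rw [this, h2, zero_mul]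
  have hg : ∀ v, g v 0 0 = 0 := fun v => by
    show g0 v 0 0 + (if (0 : Fin 30) = 0 then g0 v 0 0 else 0) = 0
    rw [if_pos rfl]
    exact dbl _
  have neg : ∀ x : k, -x = x := fun x => by
    rw [neg_eq_iff_add_eq_zero]; exact dbl x
  have euler : ∀ s : MvPolynomial (Fin 30) k, s.IsHomogeneous 4 →
      ∑ a, Φ (X a * pderiv a s) = 0 := by
    intro s hs
    rw [← map_sum, hs.sum_X_mul_pderiv, map_nsmul, nsmul_eq_mul]
    have : ((4 : ℕ) : k) = 2 * 2 := by norm_num
    rw [this, h2, zero_mul, zero_mul]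
  have hD : ∀ (v : Fin 30) (s : MvPolynomial (Fin 30) k), s.IsHomogeneous 4 →
      D (X v * s) = ∑ a, ∑ b, g v a b * Φ (X b * pderiv a s) := by
    intro v s hs
    have e1 := hm v s hs
    have e1' : G (X v * s) = β v * Φ s + ∑ a, ∑ b, m v a b * Φ (X b * pderiv a s) := e1
    have e2 : ∑ a, β a * Φ (pderiv a (X v * s)) =
        β v * Φ s + ∑ a, β a * Φ (X v * pderiv a s) := by
      have : ∀ a : Fin 30, β a * Φ (pderiv a (X v * s)) =
          (if a = v then β a * Φ s else 0) + β a * Φ (X v * pderiv a s) := by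
        intro a
        rw [Derivation.leibniz, pderiv_X, smul_eq_mul, smul_eq_mul, map_add, mul_add,
          Pi.single_apply]
        by_cases h : v = a
        · rw [if_pos h, if_pos h.symm, mul_one]; ring
        · rw [if_neg h, if_neg (Ne.symm h), mul_zero, map_zero]; ring
      rw [sum_congr rfl fun a _ => this a, sum_add_distrib, Finset.sum_ite_eq' univ v,
        if_pos (mem_univ _)]
    have e3 : ∑ a, ∑ b, g v a b * Φ (X b * pderiv a s) =
        (∑ a, ∑ b, m v a b * Φ (X b * pderiv a s)) + (∑ a, β a * Φ (X v * pderiv a s)) := by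
      have h5 : ∀ a : Fin 30, ∑ b, g v a b * Φ (X b * pderiv a s) =
          (∑ b, m v a b * Φ (X b * pderiv a s)) + β a * Φ (X v * pderiv a s) +
            g0 v 0 0 * Φ (X a * pderiv a s) := by
        intro a
        have h6 : ∀ b : Fin 30, g v a b * Φ (X b * pderiv a s) =
            (m v a b * Φ (X b * pderiv a s) +
              (if b = v then β a * Φ (X b * pderiv a s) else 0)) +
              (if b = a then g0 v 0 0 * Φ (X b * pderiv a s) else 0) := by
          intro b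
          show (m v a b + (if b = v then β a else 0) + (if b = a then g0 v 0 0 else 0)) *
            Φ (X b * pderiv a s) = _
          split_ifs <;> ring
        rw [sum_congr rfl fun b _ => h6 b, sum_add_distrib, sum_add_distrib,
          Finset.sum_ite_eq' univ v, if_pos (mem_univ _), Finset.sum_ite_eq' univ a,
          if_pos (mem_univ _)]
      rw [sum_congr rfl fun a _ => h5 a, sum_add_distrib, sum_add_distrib, ← mul_sum,
        euler s hs, mul_zero, add_zero]
    show G (X v * s) - ∑ a, β a * Φ (pderiv a (X v * s)) = _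
    rw [e1', e2, e3, sub_eq_add_neg, neg]
    have := dbl (β v * Φ s)
    linear_combination this
  -- the rows
  have hom4 : ∀ i j l n : Fin 30, (X i * X j * X l * X n : MvPolynomial (Fin 30) k).IsHomogeneous 4
      := fun i j l n =>
    (((isHomogeneous_X k i).mul (isHomogeneous_X k j)).mul (isHomogeneous_X k l)).mul
      (isHomogeneous_X k n)
  have hF : ∀ v i j l n : Fin 30,
      (Wt v.val + ((Wt i.val + Wt j.val) + (Wt l.val + Wt n.val))) % 61 = u →
      D (X v * (X i * X j * X l * X n)) =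
        LL 900 (y5 u g) (F4 (cl u v.val) (30 * v.val) i.val j.val l.val n.val) := by
    intro v i j l n hw
    rw [hD v _ (hom4 i j l n)]
    refine F4_sound h2 hΦ (cl_lt _ _) (by have := v.isLt; omega) ?_ i j l n ?_
    · intro a h
      exact y5_eq u g v a h
    · have hv := wt_lt v.val v.isLt
      show _ = (u + 61 - Wt v.val) % 61
      omega
  have hrow : ∀ i < n, LL 900 (y5 u g) (row5 u E i) = 0 := by
    intro i hi
    have h6 := allB_spec hE i hi
    obtain ⟨h7, h8⟩ := an_spec h6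
    obtain ⟨h9, h10⟩ := an_spec h7
    obtain ⟨h11, h12⟩ := an_spec h9
    obtain ⟨h13, h14⟩ := an_spec h10
    obtain ⟨h15, h16⟩ := an_spec h14
    have k1 := Nat.le_of_ble_eq_true h11
    have k2 := Nat.le_of_ble_eq_true h12
    have k3 := Nat.le_of_ble_eq_true h13
    have k4 := Nat.le_of_ble_eq_true h15
    have k5 := Nat.le_of_ble_eq_true h16
    have k6 := Nat.eq_of_beq_eq_true h8
    unfold row5 rw5
    rw [LL_xor h2]
    have e1 := hF ⟨_, k1⟩ ⟨_, k2⟩ ⟨_, k3⟩ ⟨_, k4⟩ ⟨_, k5⟩ k6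
    have e2 := hF ⟨_, k2⟩ ⟨_, k1⟩ ⟨_, k3⟩ ⟨_, k4⟩ ⟨_, k5⟩ (by
      rw [← k6]
      show _ = (_ + ((_ + _) + (_ + _))) % 61
      congr 1
      show _ + ((_ + _) + (_ + _)) = _ + ((_ + _) + (_ + _))
      simp only []
      omega)
    refine (congrArg₂ (· + ·) e1.symm e2.symm).trans ?_
    show D (X _ * (X _ * X _ * X _ * X _)) + D (X _ * (X _ * X _ * X _ * X _)) = 0
    have e3 : (X (⟨_, k2⟩ : Fin 30) * (X (⟨_, k1⟩ : Fin 30) * X (⟨_, k3⟩ : Fin 30) *
        X (⟨_, k4⟩ : Fin 30) * X (⟨_, k5⟩ : Fin 30)) : MvPolynomial (Fin 30) k) =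
        X (⟨_, k1⟩ : Fin 30) * (X (⟨_, k2⟩ : Fin 30) * X (⟨_, k3⟩ : Fin 30) *
        X (⟨_, k4⟩ : Fin 30) * X (⟨_, k5⟩ : Fin 30)) := by ring
    rw [e3]
    exact dbl _
  have hy := chk_sound h2 hrow (mask5 hM g hg) hchk
  refine ⟨β, ?_⟩
  intro i j p q r hw
  have hw' : (Wt i.val + ((Wt j.val + Wt p.val) + (Wt q.val + Wt r.val))) % 61 = u := by
    unfold w at hw
    have h6 : (((Wt i.val + ((Wt j.val + Wt p.val) + (Wt q.val + Wt r.val))) : ℕ) : ZMod 61) =
        ((u : ℕ) : ZMod 61) := by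
      rw [← hw]; push_cast; ring
    have h7 := (ZMod.natCast_eq_natCast_iff' _ _ 61).1 h6
    rw [h7, Nat.mod_eq_of_lt hu]
  have h6 := hF i j p q r hw'
  have h7 : LL 900 (y5 u g) (F4 (cl u i.val) (30 * i.val) j.val p.val q.val r.val) = 0 := by
    unfold LL
    apply sum_eq_zero
    intro t ht
    rw [hy t (mem_range.1 ht)]
    split_ifs <;> rfl
  rw [h7] at h6
  exact sub_eq_zero.1 h6

end Helper47.RB
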