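import Pool.Agent.Helper47.RB.P2

/-!
# Project RB: the quadrics as polynomials
-/

namespace Helper47.RB

open Finset MvPolynomial Helper49.RA Helper49.RC Helper47.RK

universe u

variable {k : Type u} [Field k]

lemma mon2 (a b : Fin 30) : mon k (Nat.add (Nat.pow 8 a.val) (Nat.pow 8 b.val)) = X a * X b := by
  have h1 : Nat.add (Nat.pow 8 a.val) (Nat.pow 8 b.val) =
      ds 3 30 (fun x => (if x = a.val then 1 else 0) + (if x = b.val then 1 else 0)) := by
    rw [pow8, pow8]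
    show (ds 3 30 _ + ds 3 30 _) = _
    rw [ds_add]
  have h2 : ∀ x : Fin 30, (Nat.add (Nat.pow 8 a.val) (Nat.pow 8 b.val)) / 2 ^ (3 * x.val) % 2 ^ 3 =
      (if x = a then 1 else 0) + (if x = b then 1 else 0) := by
    intro x
    rw [h1, ds_digit _ x.isLt]
    · simp only [Fin.ext_iff]
    · intro x' _
      split_ifs <;> norm_num
  unfold mon
  rw [prod_congr rfl fun x _ => by rw [h2 x]]
  simp only [pow_add, prod_mul_distrib]
  have h3 : ∀ a : Fin 30, ∏ x : Fin 30, (X x : MvPolynomial (Fin 30) k) ^ (if x = a then 1 else 0)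
      = X a := by
    intro a
    rw [prod_eq_single a]
    · simp
    · intro b _ hb
      simp [hb]
    · intro h
      exact absurd (mem_univ _) h
  rw [h3, h3]

/-- the class of a product -/
def cs (i j : ℕ) : ℕ := Nat.mod (Nat.add (Wt i) (Wt j)) 61

/-- the monomial `i` of weight `c` -/
noncomputable def mp (k : Type u) [Field k] (c i : ℕ) : MvPolynomial (Fin 30) k :=
  xv k (pa c i) * xv k (pb c i)

lemma xv_eq {n : ℕ} (h : n < 30) : xv k n = X (⟨n, h⟩ : Fin 30) := by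
  unfold xv
  congr 1
  exact Fin.ext (Nat.mod_eq_of_lt h)

lemma pr_ok {c i : ℕ} (hc : c < 61) (hi : i < n2 c) :
    pa c i < 30 ∧ pb c i < 30 ∧ (Wt (pa c i) + Wt (pb c i)) % 61 = c := by
  obtain ⟨h1, h2⟩ := an_spec (allB_spec (allB_spec okP_all c hc) i hi)
  obtain ⟨h3, h4⟩ := an_spec h1
  exact ⟨Nat.le_of_ble_eq_true h3, Nat.le_of_ble_eq_true h4, Nat.eq_of_beq_eq_true h2⟩

lemma cs_lt (i j : ℕ) : cs i j < 61 := Nat.mod_lt _ (by norm_num)

/-- every quadratic monomial is in the table -/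
lemma pair_eq (i j : Fin 30) : ∃ e < n2 (cs i.val j.val),
    (X i * X j : MvPolynomial (Fin 30) k) = mp k (cs i.val j.val) e := by
  obtain ⟨e, he, h⟩ := exB_spec (allB_spec (allB_spec okC_all i.val i.isLt) j.val j.isLt)
  refine ⟨e, he, ?_⟩
  obtain ⟨h1, h2, _⟩ := pr_ok (cs_lt i.val j.val) he
  have h3 : cd (cs i.val j.val) e = Nat.add (Nat.pow 8 i.val) (Nat.pow 8 j.val) :=
    Nat.eq_of_beq_eq_true h
  unfold mp
  rw [xv_eq h1, xv_eq h2, ← mon2 i j, ← mon2, ← h3]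
  rfl

/-- the quadric with code `q` -/
noncomputable def QP (k : Type u) [Field k] (c q : ℕ) : MvPolynomial (Fin 30) k :=
  ∑ e ∈ range (qn q), mp k c (qi q e)

lemma qi_lt {c s : ℕ} (hc : c < 61) (hs : s < 14) {e : ℕ} (he : e < qn (qq c s)) :
    qi (qq c s) e < n2 c := by
  obtain ⟨h1, _⟩ := an_spec (allB_spec (allB_spec okQ_all c hc) s hs)
  exact Nat.le_of_ble_eq_true (allB_spec h1 e he)

lemma op_lt (c : ℕ) : op c < 61 := Nat.mod_lt _ (by norm_num)

lemma xv_hom (n : ℕ) : (xv k n).IsHomogeneous 1 := isHomogeneous_X k _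

lemma QP_hom (c q : ℕ) : (QP k c q).IsHomogeneous 2 := by
  unfold QP
  exact IsHomogeneous.sum _ _ _ fun e _ => (xv_hom _).mul (xv_hom _)

lemma phi_mp {Φ : MvPolynomial (Fin 30) k →ₗ[k] k} (hΦ : IsPh k Φ) {a b c d : ℕ}
    (ha : a < 30) (hb : b < 30) (hc : c < 30) (hd : d < 30) :
    Φ (xv k a * xv k b * (xv k c * xv k d)) = bv k (tau a b c d) := by
  rw [xv_eq ha, xv_eq hb, xv_eq hc, xv_eq hd, ← mul_assoc]
  exact hΦ.val ⟨a, ha⟩ ⟨b, hb⟩ ⟨c, hc⟩ ⟨d, hd⟩

/-- the quadrics are in the ideal -/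
theorem QP_mem (h2 : (2 : k) = 0) {Φ : MvPolynomial (Fin 30) k →ₗ[k] k} (hΦ : IsPh k Φ)
    {c s : ℕ} (hc : c < 61) (hs : s < 14) : QP k c (qq c s) ∈ annI Φ := by
  refine mem_ann_of hΦ.deg (QP_hom c _) (show 2 + 2 = 4 from rfl) fun t ht => ?_
  refine ext2 (Φ ∘ₗ LinearMap.mulLeft k (QP k c (qq c s))) (fun i j => ?_) t ht
  show Φ (QP k c (qq c s) * (X i * X j)) = 0
  obtain ⟨e, he, h3⟩ := pair_eq (k := k) i j
  rw [h3]
  unfold QP
  rw [sum_mul, map_sum]
  have h4 : ∀ e' ∈ range (qn (qq c s)),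
      Φ (mp k c (qi (qq c s) e') * mp k (cs i.val j.val) e) =
      bv k (tau (pa c (qi (qq c s) e')) (pb c (qi (qq c s) e'))
        (pa (cs i.val j.val) e) (pb (cs i.val j.val) e)) := by
    intro e' he'
    have h5 := pr_ok hc (qi_lt hc hs (mem_range.1 he'))
    have h6 := pr_ok (cs_lt i.val j.val) he
    exact phi_mp hΦ h5.1 h5.2.1 h6.1 h6.2.1
  rw [sum_congr rfl h4]
  by_cases hcc : cs i.val j.val = op c
  · rw [hcc] at he ⊢
    obtain ⟨_, h5⟩ := an_spec (allB_spec (allB_spec okQ_all c hc) s hs)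
    have h6 := ng_spec (allB_spec h5 e he)
    rw [← xorB_spec h2 (fun e' => tau (pa c (qi (qq c s) e')) (pb c (qi (qq c s) e'))
      (pa (op c) e) (pb (op c) e)), h6]
    rfl
  · apply sum_eq_zero
    intro e' he'
    have h5 := pr_ok hc (qi_lt hc hs (mem_range.1 he'))
    have h6 := pr_ok (cs_lt i.val j.val) he
    rw [tau_ne]
    · rfl
    · intro h7
      apply hcc
      have h8 := cs_lt i.val j.val
      show _ = (61 - c) % 61
      omega

end Helper47.RB
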