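import Pool.Agent.Helper47.RB.Facts

/-!
# Project RB: statements of the modules
-/

namespace Helper47.RB

open MvPolynomial Helper49.RA

universe u

/-- existence of the functional (module PHI) -/
def StPhi : Prop := ∀ (k : Type u) [Field k],
  ∃ Φ : MvPolynomial (Fin 30) k →ₗ[k] k, IsPh k Φ

/-- the action of the group (module U1) -/
def StU1 : Prop := ∀ (k : Type u) [Field k] (Φ : MvPolynomial (Fin 30) k →ₗ[k] k), IsPh k Φ →
  (∀ s, Φ (sg k s) = Φ s) ∧ (∀ s ∈ annI Φ, sg k s ∈ annI Φ) ∧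
    (∀ G : MvPolynomial (Fin 30) k →ₗ[k] k, KF Φ G → KF Φ (G ∘ₗ (sg k).toLinearMap)) ∧
      ∀ (i : Fin 30) (s : MvPolynomial (Fin 30) k), pderiv (p1 i) (sg k s) = sg k (pderiv i s)

/-- degree three in all weights (module U3) -/
def StU3 : Prop := ∀ (k : Type u) [Field k] (Φ : MvPolynomial (Fin 30) k →ₗ[k] k), IsPh k Φ →
  (∀ u ∈ reps, B3 Φ u) → H3 Φ

/-- degree four in all weights (module U4) -/
def StU4 : Prop := ∀ (k : Type u) [Field k] (Φ : MvPolynomial (Fin 30) k →ₗ[k] k), IsPh k Φ →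
  (∀ u ∈ reps, B4 Φ u) → H4 Φ

/-- degree five in all weights (module U5) -/
def StU5 : Prop := ∀ (k : Type u) [Field k] (Φ : MvPolynomial (Fin 30) k →ₗ[k] k), IsPh k Φ →
  (∀ u ∈ reps, B5 Φ u) → H5 Φ

/-- degree six (module U6) -/
def StU6 : Prop := ∀ (k : Type u) [Field k] (Φ : MvPolynomial (Fin 30) k →ₗ[k] k), IsPh k Φ →
  H5 Φ → H6 Φ

/-- degrees one and two (module U12) -/
def StU12 : Prop := ∀ (k : Type u) [Field k] (Φ : MvPolynomial (Fin 30) k →ₗ[k] k), IsPh k Φ →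
  H1 Φ ∧ H2 Φ

end Helper47.RB
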